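import Pool.Agent.H16.LP.Stm

/-!
# LP-DIV: division by `X - α` preserves integrality of the coefficients
-/

set_option autoImplicit false

namespace Pool.Agent.H16.LP

open Polynomial NumberField IsDedekindDomain

namespace DIV

variable {L : Type} [Field L]

lemma low (G : L[X]) (α : L) (k : ℕ) : G.coeff k * α ^ (k + 1) =
    - ∑ l ∈ Finset.range (k + 1), ((X - C α) * G).coeff l * α ^ l := by
  induction k with
  | zero =>
    rw [Finset.sum_range_one]
    simp [sub_mul]
    ring
  | succ k ih =>
    rw [Finset.sum_range_succ, neg_add, ← ih, coeff_X_sub_C_mul]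
    ring

lemma high (G : L[X]) (α : L) (k n : ℕ) : G.coeff k =
    ∑ i ∈ Finset.range n, ((X - C α) * G).coeff (k + 1 + i) * α ^ i + G.coeff (k + n) * α ^ n := by
  induction n with
  | zero => simp
  | succ n ih =>
    rw [Finset.sum_range_succ]
    have e1 : k + 1 + n = k + n + 1 := by ring
    rw [e1, coeff_X_sub_C_mul]
    conv_lhs => rw [ih]
    have e2 : k + (n + 1) = k + n + 1 := by ring
    rw [e2]
    ring

end DIV

open DIV in
theorem div_sound : S_DIV := by
  intro L _ _ G α h k
  rcases eq_or_ne G 0 with rfl | hG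
  · simpa using (isIntegral_zero : IsIntegral ℤ (0 : L))
  obtain ⟨D, hD⟩ : ∃ D, D = G.natDegree + 1 := ⟨_, rfl⟩
  have hGD : G.coeff D = 0 := coeff_eq_zero_of_natDegree_lt (by omega)
  rcases Nat.lt_or_ge D k with hk | hk
  · rw [coeff_eq_zero_of_natDegree_lt (by omega)]
    exact isIntegral_zero
  -- the module
  let A := integralClosure ℤ L
  let N : Submodule A L := Submodule.span A (Set.range fun m : Fin (D + 1) => α ^ (m : ℕ))
  have hgen : ∀ m : ℕ, m ≤ D → α ^ m ∈ N := fun m hm =>
    Submodule.subset_span ⟨⟨m, by omega⟩, rfl⟩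
  have hmul : ∀ (l m : ℕ), m ≤ D → ((X - C α) * G).coeff l * α ^ m ∈ N := by
    intro l m hm
    have := N.smul_mem (⟨((X - C α) * G).coeff l, h l⟩ : A) (hgen m hm)
    exact this
  have hstep : ∀ m : ℕ, m ≤ D → G.coeff k * α ^ m ∈ N := by
    intro m hm
    rcases Nat.lt_or_ge k m with h1 | h1
    · obtain ⟨r, rfl⟩ : ∃ r, m = k + 1 + r := ⟨m - (k + 1), by omega⟩
      have e1 : G.coeff k * α ^ (k + 1 + r) = (G.coeff k * α ^ (k + 1)) * α ^ r := by
        rw [pow_add]; ring
      rw [e1, low, neg_mul, Finset.sum_mul]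
      apply N.neg_mem
      apply N.sum_mem
      intro l hl
      rw [Finset.mem_range] at hl
      rw [mul_assoc, ← pow_add]
      exact hmul l _ (by omega)
    · have h2 := high G α k (D - k)
      have e1 : k + (D - k) = D := by omega
      rw [e1, hGD, zero_mul, add_zero] at h2
      rw [h2, Finset.sum_mul]
      apply N.sum_mem
      intro i hi
      rw [Finset.mem_range] at hi
      rw [mul_assoc, ← pow_add]
      exact hmul _ _ (by omega)
  have hN0 : N ≠ ⊥ := by
    intro h0
    have h1 := hgen 0 (by omega)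
    rw [h0, pow_zero, Submodule.mem_bot] at h1
    exact one_ne_zero h1
  have hNfg : N.FG := Submodule.fg_span (Set.finite_range _)
  have hx : ∀ n ∈ N, G.coeff k • n ∈ N := by
    intro n hn
    induction hn using Submodule.span_induction with
    | mem x hx =>
      obtain ⟨m, rfl⟩ := hx
      rw [smul_eq_mul]
      exact hstep m (by omega)
    | zero => rw [smul_zero]; exact N.zero_mem
    | add x y _ _ hx hy => rw [smul_add]; exact N.add_mem hx hy
    | smul a x _ hx =>
      rw [smul_comm]
      exact N.smul_mem a hx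
  have hint : IsIntegral A (G.coeff k) := isIntegral_of_smul_mem_submodule N hN0 hNfg _ hx
  exact isIntegral_trans (R := ℤ) (A := A) _ hint

end Pool.Agent.H16.LP
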