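import Pool.Agent.H16.LP.Stm

/-!
# LP-EMB: the minimal polynomial of a generator and the embeddings
-/

set_option autoImplicit false

namespace Pool.Agent.H16.LP

open Polynomial NumberField IsDedekindDomain

namespace EMB

lemma inj {K : Type} [Field K] [NumberField K] (j : K)
    (hj : IntermediateField.adjoin ℚ {j} = ⊤) : Function.Injective fun φ : K →+* ℂ => φ j := by
  intro φ ψ h
  have h1 := (Field.primitive_element_iff_algHom_eq_of_eval' ℚ ℂ
    (fun x => IsAlgClosed.splits _) j).1 hj
  have h2 : φ.toRatAlgHom = ψ.toRatAlgHom := h1 h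
  have h3 := congrArg (fun f : K →ₐ[ℚ] ℂ => (f : K →+* ℂ)) h2
  simpa using h3

end EMB

theorem emb_sound : S_EMB := by
  intro K _ _ j hj
  classical
  have hint : IsIntegral ℚ j := Algebra.IsIntegral.isIntegral j
  obtain ⟨p, hp⟩ : ∃ p, p = (minpoly ℚ j).map (algebraMap ℚ ℂ) := ⟨_, rfl⟩
  have hmonic : p.Monic := by rw [hp]; exact (minpoly.monic hint).map _
  have hsep : p.Separable := by
    rw [hp]
    exact (minpoly.irreducible hint).separable.map
  have hnd : p.roots.Nodup := nodup_roots hsep
  have h1 : p = (p.roots.map (fun a => X - C a)).prod :=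
    (IsAlgClosed.splits p).eq_prod_roots_of_monic hmonic
  have h2 : p.roots = (Finset.univ : Finset (K →+* ℂ)).val.map (fun φ => φ j) := by
    rw [Multiset.Nodup.ext hnd ((Multiset.nodup_map_iff_inj_on Finset.univ.nodup).2
      (fun φ _ ψ _ h => EMB.inj j hj h))]
    intro a
    have h3 := NumberField.Embeddings.range_eval_eq_rootSet_minpoly K ℂ j
    have h4 : a ∈ (minpoly ℚ j).rootSet ℂ ↔ a ∈ p.roots := by
      rw [rootSet, Finset.mem_coe, Multiset.mem_toFinset, aroots, hp]
    rw [← h4, ← h3]
    simp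
  rw [← hp]
  conv_lhs => rw [h1, h2]
  rw [Multiset.map_map]
  rfl

end Pool.Agent.H16.LP
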