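import Pool.Agent.H16.LP.Stm

/-!
# Project LP: the finite part of the height (stub LP-FIN)
-/

set_option autoImplicit false

namespace Pool.Agent.H16.LP

namespace FINaux

open NumberField

variable {K : Type} [Field K] [NumberField K]

/-- the norm of an ideal is an integral combination of the norms of its elements -/
theorem norm_dvd (I : Ideal (𝓞 K)) (a n : ℤ) (h : ∀ x ∈ I, n ∣ a * Algebra.norm ℤ x) :
    n ∣ a * (Ideal.absNorm I : ℤ) := by
  have h1 : (Ideal.absNorm I : ℤ) ∈ Ideal.spanNorm ℤ I := by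
    rw [Ideal.spanNorm_eq, Ideal.relNorm_int]
    exact Ideal.mem_span_singleton_self _
  let J : Ideal ℤ :=
    { carrier := {y | n ∣ a * y}
      zero_mem' := by simp
      add_mem' := fun {x y} hx hy => by
        show n ∣ a * (x + y)
        rw [mul_add]
        exact dvd_add hx hy
      smul_mem' := fun c x hx => by
        show n ∣ a * (c * x)
        rw [mul_left_comm]
        exact dvd_mul_of_dvd_right hx _ }
  have h2 : Ideal.spanNorm ℤ I ≤ J := by
    unfold Ideal.spanNorm Ideal.map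
    rw [Ideal.span_le]
    rintro _ ⟨x, hx, rfl⟩
    show n ∣ a * Algebra.intNorm ℤ (𝓞 K) x
    rw [Algebra.intNorm_eq_norm]
    exact h x hx
  exact h2 h1

theorem sup_two (f : Fin 2 → ℝ) : ⨆ i, f i = max (f 0) (f 1) := by
  apply le_antisymm
  · refine ciSup_le fun i => ?_
    fin_cases i
    · exact le_max_left _ _
    · exact le_max_right _ _
  · exact max_le (le_ciSup (Finite.bddAbove_range f) 0) (le_ciSup (Finite.bddAbove_range f) 1)

end FINaux

open FINaux NumberField in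
/-- **FIN** -/
theorem fin_sound : S_FIN := by
  intro K _ _ a j ha h
  have ha1 : (1 : ℝ) ≤ |(a : ℝ)| := by
    have := Int.one_le_abs ha
    exact_mod_cast this
  by_cases hj : j = 0
  · subst hj
    have h1 : ∀ v : FinitePlace K, max (v 0) 1 = 1 := fun v => by simp
    simp only [h1, finprod_one]
    exact ha1
  obtain ⟨α₀, β₀, hβ, rfl⟩ := IsFractionRing.div_surjective (𝓞 K) j
  have hβ0 : β₀ ≠ 0 := nonZeroDivisors.ne_zero hβ
  have hα0 : α₀ ≠ 0 := by
    rintro rfl
    simp at hj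
  set x : Fin 2 → 𝓞 K := ![α₀, β₀] with hx
  have hx0 : x ≠ 0 := fun h1 => hα0 (congrFun h1 0)
  have hxi : ∀ i, x i ≠ 0 := by
    intro i
    fin_cases i
    · exact hα0
    · exact hβ0
  have H1 := absNorm_mul_finprod_finitePlace_eq_one hx0
  have H2 := FinitePlace.prod_eq_inv_abs_norm_int hβ0
  have hs1 : (fun v : FinitePlace K => ⨆ i, v (x i : K)).HasFiniteMulSupport :=
    .iSup fun i => FinitePlace.hasFiniteMulSupport (RingOfIntegers.coe_ne_zero_iff.mpr (hxi i))
  have hs2 : (fun v : FinitePlace K => v (β₀ : K)).HasFiniteMulSupport :=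
    FinitePlace.hasFiniteMulSupport (RingOfIntegers.coe_ne_zero_iff.mpr hβ0)
  have hpt : ∀ v : FinitePlace K, max (v (algebraMap (𝓞 K) K α₀ / algebraMap (𝓞 K) K β₀)) 1 =
      (⨆ i, v (x i : K)) / v (β₀ : K) := by
    intro v
    have hv : 0 < v (β₀ : K) :=
      lt_of_le_of_ne (apply_nonneg v _)
        ((map_ne_zero v).2 (RingOfIntegers.coe_ne_zero_iff.mpr hβ0)).symm
    have h1 : (1 : ℝ) = v (β₀ : K) / v (β₀ : K) := (div_self hv.ne').symm
    rw [sup_two, map_div₀]
    conv_lhs => rw [h1]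
    exact max_div_div_right hv.le _ _
  simp only [hpt]
  rw [finprod_div_distrib hs1 hs2, H2, div_inv_eq_mul]
  -- the divisibility
  have hdvd : ∀ y ∈ Ideal.span (Set.range x), Algebra.norm ℤ β₀ ∣ a * Algebra.norm ℤ y := by
    intro y hy
    have hr : Set.range x = {α₀, β₀} := by
      rw [hx]
      simp [Set.pair_comm]
    rw [hr, Ideal.mem_span_pair] at hy
    obtain ⟨u, w, rfl⟩ := hy
    obtain ⟨z, hz⟩ := h w u
    refine ⟨z, ?_⟩
    have hβK : algebraMap (𝓞 K) K β₀ ≠ 0 := RingOfIntegers.coe_ne_zero_iff.mpr hβ0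
    have h2 : ((u * α₀ + w * β₀ : 𝓞 K) : K) = (β₀ : K) *
        ((w : K) + u * (algebraMap (𝓞 K) K α₀ / algebraMap (𝓞 K) K β₀)) := by
      push_cast
      field_simp
      ring
    have h3 : ((a * Algebra.norm ℤ (u * α₀ + w * β₀) : ℤ) : ℚ) =
        ((Algebra.norm ℤ β₀ * z : ℤ) : ℚ) := by
      push_cast
      rw [Algebra.coe_norm_int, Algebra.coe_norm_int, ← hz]
      have h4 := congrArg (Algebra.norm ℚ) h2
      rw [map_mul] at h4
      rw [h4]
      ring
    exact_mod_cast h3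
  have h5 := norm_dvd _ _ _ hdvd
  set N := Ideal.absNorm (Ideal.span (Set.range x)) with hN
  have hN0 : N ≠ 0 := by
    intro h6
    rw [h6] at H1
    simp at H1
  have h6 : |Algebra.norm ℤ β₀| ≤ |a * (N : ℤ)| := by
    rw [← Int.natCast_natAbs, ← Int.natCast_natAbs]
    have := Nat.le_of_dvd (Int.natAbs_pos.2 (mul_ne_zero ha (by exact_mod_cast hN0)))
      (Int.natAbs_dvd_natAbs.2 h5)
    exact_mod_cast this
  have h7 : |((Algebra.norm ℤ β₀ : ℤ) : ℝ)| ≤ |(a : ℝ)| * N := by
    have h8 : ((|Algebra.norm ℤ β₀| : ℤ) : ℝ) ≤ ((|a * (N : ℤ)| : ℤ) : ℝ) := by exact_mod_cast h6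
    rw [Int.cast_abs, Int.cast_abs, Int.cast_mul, abs_mul, Int.cast_natCast, Nat.abs_cast] at h8
    exact h8
  set P := ∏ᶠ v : FinitePlace K, ⨆ i, v (x i : K) with hP
  have hNpos : (0 : ℝ) < N := by exact_mod_cast Nat.pos_of_ne_zero hN0
  have hPpos : 0 ≤ P := by
    have h8 : P = 1 / N := by
      rw [eq_div_iff hNpos.ne', mul_comm]
      exact H1
    rw [h8]
    positivity
  calc P * |((Algebra.norm ℤ β₀ : ℤ) : ℝ)| ≤ P * (|(a : ℝ)| * N) :=
        mul_le_mul_of_nonneg_left h7 hPpos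
    _ = |(a : ℝ)| * (N * P) := by ring
    _ = |(a : ℝ)| := by rw [H1, mul_one]

end Pool.Agent.H16.LP
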