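import Pool.Agent.H16.LP.Stm

/-! # Project LP, stub MIN (helper44) -/

set_option autoImplicit false

namespace Pool.Agent.H16.LP

open Polynomial NumberField

theorem MINaux.coeff (d : ℕ) (a : Fin (d + 1) → ℤ) (i : Fin (d + 1)) :
    (∑ i : Fin (d + 1), monomial (i : ℕ) ((a i : ℤ) : ℚ)).coeff i = a i := by
  rw [finset_sum_coeff, Finset.sum_eq_single i]
  · rw [coeff_monomial, if_pos rfl]
  · intro k _ hk
    rw [coeff_monomial, if_neg]
    exact fun h => hk (Fin.ext h)
  · intro h
    exact absurd (Finset.mem_univ _) h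

theorem MINaux.natDegree (d : ℕ) (a : Fin (d + 1) → ℤ) :
    (∑ i : Fin (d + 1), monomial (i : ℕ) ((a i : ℤ) : ℚ)).natDegree ≤ d := by
  refine natDegree_sum_le_of_forall_le _ _ fun i _ => ?_
  exact (natDegree_monomial_le _).trans (Nat.lt_succ_iff.1 i.2)

theorem min_sound : S_MIN := by
  intro K _ _ d a j hR ha
  set P : ℚ[X] := ∑ i : Fin (d + 1), monomial (i : ℕ) ((a i : ℤ) : ℚ) with hP
  have hint : IsIntegral ℚ j := Algebra.IsIntegral.isIntegral j
  have hdeg : (minpoly ℚ j).natDegree = d := by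
    rw [← IntermediateField.adjoin.finrank hint, ← hR.deg, hR.gen]
    exact IntermediateField.finrank_top'
  have hP0 : P ≠ 0 := by
    intro h
    apply ha
    funext i
    have h1 := MINaux.coeff d a i
    rw [← hP, h, coeff_zero] at h1
    exact_mod_cast h1.symm
  have hdvd : minpoly ℚ j ∣ P := by
    apply minpoly.dvd
    rw [hP, map_sum]
    rw [← hR.root]
    refine Finset.sum_congr rfl fun i _ => ?_
    rw [aeval_monomial]
    simp
  obtain ⟨Q, hQ⟩ := hdvd
  have hmon := minpoly.monic hint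
  have hQ0 : Q ≠ 0 := by
    rintro rfl
    rw [mul_zero] at hQ
    exact hP0 hQ
  have hQd : Q.natDegree = 0 := by
    have h1 : P.natDegree = (minpoly ℚ j).natDegree + Q.natDegree := by
      rw [hQ, natDegree_mul hmon.ne_zero hQ0]
    have h2 := MINaux.natDegree d a
    rw [← hP] at h2
    omega
  obtain ⟨q, hq⟩ := natDegree_eq_zero.1 hQd
  have hlast : ((a (Fin.last d) : ℤ) : ℚ) = q := by
    have h1 := MINaux.coeff d a (Fin.last d)
    rw [← hP, hQ, ← hq, Fin.val_last, coeff_mul_C] at h1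
    rw [← h1]
    have h2 : (minpoly ℚ j).coeff d = 1 := by
      have := hmon.coeff_natDegree
      rwa [hdeg] at this
    rw [h2, one_mul]
  refine ⟨?_, hdeg, ?_⟩
  · intro h
    rw [h, Int.cast_zero] at hlast
    apply hQ0
    rw [← hq, ← hlast, C_0]
  · rw [hlast, hQ, ← hq, mul_comm]

end Pool.Agent.H16.LP
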