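import Pool.Agent.H16.LP.Stm

/-! # Project LP, stub NRM (helper44) -/

set_option autoImplicit false

namespace Pool.Agent.H16.LP

open Polynomial NumberField

theorem NRMaux.norm (K : Type) [Field K] [NumberField K] (x : K) :
    ((Algebra.norm ℚ x : ℚ) : ℂ) = ∏ φ : K →+* ℂ, φ x := by
  have h := Algebra.norm_eq_prod_embeddings ℚ ℂ x
  rw [← Fintype.prod_equiv (RingHom.equivRatAlgHom K ℂ) (fun f => f x)
      (fun φ => φ x) fun _ => by simp [RingHom.equivRatAlgHom_apply]] at h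
  rw [← h]
  simp

theorem nrm_sound : S_NRM := by
  classical
  intro hM hE hS K _ _ d a j hR ha α β
  obtain ⟨_, _, hP⟩ := hM K d a j hR ha
  have hEj := hE K j hR.gen
  -- the polynomial with integral coefficients
  have hco : ∀ i, IsIntegral ℤ ((C ((a (Fin.last d) : ℤ) : ℂ) *
      ∏ φ : K →+* ℂ, (X - C (φ j))).coeff i) := by
    intro i
    have h1 : C ((a (Fin.last d) : ℤ) : ℂ) * ∏ φ : K →+* ℂ, (X - C (φ j)) =
        ∑ i : Fin (d + 1), monomial (i : ℕ) ((a i : ℤ) : ℂ) := by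
      rw [← hEj]
      have h2 := congrArg (Polynomial.map (algebraMap ℚ ℂ)) hP
      rw [Polynomial.map_mul, Polynomial.map_C, Polynomial.map_sum] at h2
      simp only [Polynomial.map_monomial, map_intCast] at h2
      exact h2.symm
    rw [h1, finsetSum_coeff]
    refine IsIntegral.sum _ fun k _ => ?_
    rw [coeff_monomial]
    split_ifs
    · exact isIntegral_algebraMap (R := ℤ) (A := ℂ) (x := a k)
    · exact isIntegral_zero
  have hint : IsIntegral ℤ (((a (Fin.last d) : ℤ) : ℂ) *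
      ∏ φ : K →+* ℂ, (φ (α : K) + φ (β : K) * φ j)) := by
    rw [Finset.prod_add, Finset.mul_sum]
    refine IsIntegral.sum _ fun t _ => ?_
    rw [Finset.prod_mul_distrib]
    have h3 : ∀ φ : K →+* ℂ, ∀ x : 𝓞 K, IsIntegral ℤ (φ (x : K)) := by
      intro φ x
      exact (RingOfIntegers.isIntegral_coe x).map φ.toIntAlgHom
    have h4 := hS (K →+* ℂ) Finset.univ (Finset.univ \ t) (fun φ => φ j)
      ((a (Fin.last d) : ℤ) : ℂ) (Finset.subset_univ _) hco
    have h5 : ((a (Fin.last d) : ℤ) : ℂ) * ((∏ φ ∈ t, φ (α : K)) *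
        ((∏ φ ∈ Finset.univ \ t, φ (β : K)) * ∏ φ ∈ Finset.univ \ t, φ j)) =
        ((∏ φ ∈ t, φ (α : K)) * ∏ φ ∈ Finset.univ \ t, φ (β : K)) *
          (((a (Fin.last d) : ℤ) : ℂ) * ∏ φ ∈ Finset.univ \ t, φ j) := by ring
    rw [h5]
    exact ((IsIntegral.prod _ fun φ _ => h3 φ α).mul (IsIntegral.prod _ fun φ _ => h3 φ β)).mul h4
  have h6 : ((((a (Fin.last d) : ℤ) : ℚ) * Algebra.norm ℚ ((α : K) + β * j) : ℚ) : ℂ) =
      ((a (Fin.last d) : ℤ) : ℂ) * ∏ φ : K →+* ℂ, (φ (α : K) + φ (β : K) * φ j) := by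
    rw [Rat.cast_mul, NRMaux.norm]
    simp
  rw [← h6] at hint
  have h7 : IsIntegral ℤ (((a (Fin.last d) : ℤ) : ℚ) * Algebra.norm ℚ ((α : K) + β * j)) := by
    have h8 : ((((a (Fin.last d) : ℤ) : ℚ) * Algebra.norm ℚ ((α : K) + β * j) : ℚ) : ℂ) =
      algebraMap ℚ ℂ (((a (Fin.last d) : ℤ) : ℚ) * Algebra.norm ℚ ((α : K) + β * j)) := rfl
    rw [h8] at hint
    exact (isIntegral_algebraMap_iff (algebraMap ℚ ℂ).injective).1 hint
  obtain ⟨z, hz⟩ := IsIntegrallyClosed.isIntegral_iff.1 h7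
  exact ⟨z, by rw [← hz]; simp⟩

end Pool.Agent.H16.LP
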