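import Pool.Agent.H16.LP.Stm

/-! # Project LP, stub PM (helper44) -/

set_option autoImplicit false

namespace Pool.Agent.H16.LP

open NumberField IsDedekindDomain

theorem pm_sound : S_PM := by
  intro K _ _ v p m hp hpv hm
  rw [FinitePlace.mk_apply]
  have h : (m : K) = algebraMap (𝓞 K) K (m : 𝓞 K) := by simp
  rw [h, FinitePlace.norm_eq_one_iff_notMem]
  intro hmv
  have hc : Nat.Coprime p m := (Nat.Prime.coprime_iff_not_dvd hp).2 hm
  obtain ⟨a, b, hab⟩ := Nat.isCoprime_iff_coprime.2 hc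
  have h1 : (1 : 𝓞 K) ∈ v.asIdeal := by
    have h2 : ((a * p + b * m : ℤ) : 𝓞 K) = 1 := by
      rw [hab]
      simp
    rw [← h2]
    push_cast
    exact add_mem (Ideal.mul_mem_left _ _ hpv) (Ideal.mul_mem_left _ _ hmv)
  exact v.isPrime.ne_top ((Ideal.eq_top_iff_one _).2 h1)

end Pool.Agent.H16.LP
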