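import Pool.Agent.H16.LP.Stm

/-!
# LP-POL: a prime which divides the leading coefficient but not all coefficients gives a pole
-/

set_option autoImplicit false

namespace Pool.Agent.H16.LP

open Polynomial NumberField IsDedekindDomain

namespace POLaux

variable {K : Type} [Field K] [NumberField K]

theorem le_one_iff (v : HeightOneSpectrum (𝓞 K)) (x : K) :
    FinitePlace.mk v x ≤ 1 ↔ v.valuation K x ≤ 1 := by
  rw [FinitePlace.mk_apply, FinitePlace.norm_embedding,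
    HeightOneSpectrum.adicAbv_def]
  rw [← WithZeroMulInt.toNNReal_le_one_iff (HeightOneSpectrum.one_lt_absNorm_nnreal v)]
  norm_cast

/-- a pole has a multiplier prime to `p` -/
theorem exists_mult (v : HeightOneSpectrum (𝓞 K)) (x : K) {p : ℕ} (hp : p.Prime)
    (hv : ((p : ℕ) : 𝓞 K) ∉ v.asIdeal) : ∃ s : ℕ, ¬ p ∣ s ∧ FinitePlace.mk v ((s : K) * x) ≤ 1 := by
  obtain ⟨a, m, hm, hn⟩ := Nat.exists_eq_pow_mul_and_not_dvd
    (n := Ideal.absNorm v.asIdeal) (by
      have := HeightOneSpectrum.one_lt_absNorm v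
      omega) p hp.ne_one
  have h1 : ((Ideal.absNorm v.asIdeal : ℕ) : 𝓞 K) ∈ v.asIdeal := Ideal.absNorm_mem _
  rw [hn, Nat.cast_mul, Nat.cast_pow] at h1
  have h2 : ((m : ℕ) : 𝓞 K) ∈ v.asIdeal := by
    rcases v.isPrime.mem_or_mem h1 with h | h
    · exact absurd (v.isPrime.mem_of_pow_mem _ h) hv
    · exact h
  have h3 : FinitePlace.mk v ((m : ℕ) : K) < 1 := by
    have h4 := (FinitePlace.norm_lt_one_iff_mem (K := K) v ((m : ℕ) : 𝓞 K)).2 h2
    rw [FinitePlace.mk_apply]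
    simpa using h4
  have h0 : 0 ≤ FinitePlace.mk v ((m : ℕ) : K) := apply_nonneg _ _
  have hx0 : 0 ≤ FinitePlace.mk v x := apply_nonneg _ _
  obtain ⟨k, hk⟩ := exists_pow_lt_of_lt_one (show (0 : ℝ) < 1 / (FinitePlace.mk v x + 1) by
    positivity) h3
  refine ⟨m ^ k, fun h => hm (hp.dvd_of_dvd_pow h), ?_⟩
  rw [Nat.cast_pow, map_mul, map_pow]
  rw [lt_div_iff₀ (by positivity)] at hk
  have h5 := pow_nonneg h0 k
  nlinarith

/-- an integral multiple by an integer prime to `p` -/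
theorem exists_int (x : K) {p : ℕ} (hp : p.Prime)
    (h : ∀ v : HeightOneSpectrum (𝓞 K), ((p : ℕ) : 𝓞 K) ∈ v.asIdeal → FinitePlace.mk v x ≤ 1) :
    ∃ s : ℕ, ¬ p ∣ s ∧ IsIntegral ℤ ((s : K) * x) := by
  classical
  have hfin := HeightOneSpectrum.Support.finite (𝓞 K) x
  have key : ∀ v : HeightOneSpectrum (𝓞 K), ∃ s : ℕ, ¬ p ∣ s ∧
      FinitePlace.mk v ((s : K) * x) ≤ 1 := by
    intro v
    by_cases hv : ((p : ℕ) : 𝓞 K) ∈ v.asIdeal
    · refine ⟨1, fun h1 => hp.one_lt.ne' (Nat.dvd_one.1 h1), ?_⟩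
      rw [Nat.cast_one, one_mul]
      exact h v hv
    · exact exists_mult v x hp hv
  choose s hs hsx using key
  have hnat : ∀ (v : HeightOneSpectrum (𝓞 K)) (n : ℕ), FinitePlace.mk v ((n : ℕ) : K) ≤ 1 := by
    intro v n
    have := FinitePlace.norm_le_one (K := K) v ((n : ℕ) : 𝓞 K)
    rw [FinitePlace.mk_apply]
    simpa using this
  refine ⟨∏ v ∈ hfin.toFinset, s v, fun h1 => ?_, ?_⟩
  · obtain ⟨v, -, hv⟩ := (Prime.dvd_finsetProd_iff hp.prime _).1 h1
    exact hs v hv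
  · have h2 : (((∏ v ∈ hfin.toFinset, s v : ℕ) : K) * x) ∈ (algebraMap (𝓞 K) K).range := by
      refine HeightOneSpectrum.mem_integers_of_valuation_le_one K _ fun v => ?_
      rw [← le_one_iff]
      by_cases hv : v ∈ hfin.toFinset
      · rw [← Finset.mul_prod_erase _ _ hv, Nat.cast_mul, mul_comm ((s v : ℕ) : K), mul_assoc,
          map_mul]
        exact mul_le_one₀ (hnat v _) (apply_nonneg _ _) (hsx v)
      · have h3 : ¬ 1 < v.valuation K x := fun h4 => hv (hfin.mem_toFinset.2 h4)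
        rw [not_lt, ← le_one_iff] at h3
        rw [map_mul]
        exact mul_le_one₀ (hnat v _) (apply_nonneg _ _) h3
    obtain ⟨r, hr⟩ := h2
    rw [← hr]
    exact RingOfIntegers.isIntegral_coe r

/-- the minimal polynomial of a multiple -/
theorem minpoly_mul (x : K) {s : ℕ} (hs : s ≠ 0) :
    minpoly ℚ ((s : K) * x) = (minpoly ℚ x).scaleRoots (s : ℚ) := by
  have hs' : (s : K) ≠ 0 := Nat.cast_ne_zero.2 hs
  have hx : IsIntegral ℚ x := Algebra.IsIntegral.isIntegral x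
  have hy : IsIntegral ℚ ((s : K) * x) := Algebra.IsIntegral.isIntegral _
  have h1 : aeval ((s : K) * x) ((minpoly ℚ x).scaleRoots (s : ℚ)) = 0 := by
    have h := scaleRoots_aeval_eq_zero (r := (s : ℚ)) (minpoly.aeval ℚ x)
    rwa [map_natCast] at h
  have h2 : aeval x ((minpoly ℚ ((s : K) * x)).scaleRoots (s : ℚ)⁻¹) = 0 := by
    have h := scaleRoots_aeval_eq_zero (r := (s : ℚ)⁻¹) (minpoly.aeval ℚ ((s : K) * x))
    rwa [map_inv₀, map_natCast, ← mul_assoc, inv_mul_cancel₀ hs', one_mul] at h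
  have m1 : ((minpoly ℚ x).scaleRoots (s : ℚ)).Monic :=
    (monic_scaleRoots_iff _).2 (minpoly.monic hx)
  have m2 : ((minpoly ℚ ((s : K) * x)).scaleRoots (s : ℚ)⁻¹).Monic :=
    (monic_scaleRoots_iff _).2 (minpoly.monic hy)
  have d1 := minpoly.dvd ℚ _ h1
  have d2 := natDegree_le_of_dvd (minpoly.dvd ℚ _ h2) m2.ne_zero
  rw [natDegree_scaleRoots] at d2
  refine (eq_of_monic_of_dvd_of_natDegree_le (minpoly.monic hy) m1 d1 ?_).symm
  rw [natDegree_scaleRoots]
  exact d2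

end POLaux

open POLaux in
/-- if a prime `p` divides `a_d` but not all `a_i`, then `j` has a pole above `p` -/
theorem pol_sound : S_POL := by
  classical
  intro hmin K _ _ d a j p hR hp hpd hpa
  by_contra hcon
  have hcon' : ∀ v : HeightOneSpectrum (𝓞 K), ((p : ℕ) : 𝓞 K) ∈ v.asIdeal →
      FinitePlace.mk v j ≤ 1 := by
    intro v hv
    by_contra h
    exact hcon ⟨v, hv, not_le.1 h⟩
  obtain ⟨s, hs, hsj⟩ := exists_int j hp hcon'
  have hs0 : s ≠ 0 := by
    rintro rfl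
    exact hs (dvd_zero p)
  obtain ⟨i, hi⟩ := hpa
  have ha0 : a ≠ 0 := by
    rintro rfl
    exact hi (dvd_zero _)
  obtain ⟨-, hdeg, hpoly⟩ := hmin K d a j hR ha0
  -- coefficients
  have hc : ((a i : ℤ) : ℚ) = ((a (Fin.last d) : ℤ) : ℚ) * (minpoly ℚ j).coeff i := by
    have h1 := congrArg (fun P : ℚ[X] => P.coeff (i : ℕ)) hpoly
    simp only [finsetSum_coeff, coeff_monomial, coeff_C_mul] at h1
    rw [Finset.sum_eq_single i] at h1
    · simpa using h1
    · intro k _ hk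
      rw [if_neg]
      exact fun h => hk (Fin.ext h)
    · intro h
      exact absurd (Finset.mem_univ _) h
  have h2 := minpoly_mul j hs0
  rw [minpoly.isIntegrallyClosed_eq_field_fractions' ℚ hsj] at h2
  have h3 := congrArg (fun P : ℚ[X] => P.coeff (i : ℕ)) h2
  simp only [coeff_map, coeff_scaleRoots, hdeg] at h3
  set z := (minpoly ℤ ((s : K) * j)).coeff (i : ℕ) with hz
  have h4 : ((a i * (s : ℤ) ^ (d - (i : ℕ)) : ℤ) : ℚ) = ((a (Fin.last d) * z : ℤ) : ℚ) := by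
    push_cast
    rw [hc, mul_assoc, ← h3]
    simp
  have h5 : a i * (s : ℤ) ^ (d - (i : ℕ)) = a (Fin.last d) * z := by exact_mod_cast h4
  have h6 : (p : ℤ) ∣ a i * (s : ℤ) ^ (d - (i : ℕ)) := h5 ▸ hpd.mul_right z
  have hpp : Prime (p : ℤ) := Nat.prime_iff_prime_int.1 hp
  rcases hpp.dvd_or_dvd h6 with h | h
  · exact hi h
  · exact hs (Int.natCast_dvd_natCast.1 (hpp.dvd_of_dvd_pow h))

end Pool.Agent.H16.LP
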