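import Pool.Agent.H16.LP.Stm
set_option autoImplicit false

/-!
# Project LP: few integers have a small radical
-/

namespace Pool.Agent.H16.LP

open Finset Nat

namespace RAD

/-- `n ↦ n ^ (-ε)` -/
noncomputable def gg (ε : ℝ) (hε : 0 < ε) : ℕ →*₀ ℝ where
  toFun n := (n : ℝ) ^ (-ε)
  map_zero' := by rw [Nat.cast_zero, Real.zero_rpow (by linarith)]
  map_one' := by simp
  map_mul' a b := by rw [Nat.cast_mul, Real.mul_rpow (by positivity) (by positivity)]

lemma gg_apply (ε : ℝ) (hε : 0 < ε) (n : ℕ) : gg ε hε n = (n : ℝ) ^ (-ε) := rfl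

lemma gg_nonneg (ε : ℝ) (hε : 0 < ε) (n : ℕ) : 0 ≤ gg ε hε n := by
  rw [gg_apply]; positivity

lemma gg_lt_one (ε : ℝ) (hε : 0 < ε) {p : ℕ} (hp : p.Prime) : gg ε hε p < 1 := by
  rw [gg_apply]
  exact Real.rpow_lt_one_of_one_lt_of_neg (by exact_mod_cast hp.one_lt) (by linarith)

lemma exists_P (ε : ℝ) (hε : 0 < ε) : ∃ P : ℕ, ∀ p : ℕ, P ≤ p → gg ε hε p ≤ 1 / 2 := by
  have h1 := (tendsto_rpow_neg_atTop hε).comp (tendsto_natCast_atTop_atTop (R := ℝ))
  have h2 := h1.eventually (ge_mem_nhds (by norm_num : (0 : ℝ) < 1 / 2))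
  obtain ⟨P, hP⟩ := Filter.eventually_atTop.1 h2
  exact ⟨P, fun p hp => hP p hp⟩

lemma euler (ε : ℝ) (hε : 0 < ε) (T S' : Finset ℕ) (hT : ∀ p ∈ T, p.Prime)
    (hS : ∀ n ∈ S', n ∈ factoredNumbers T) :
    ∑ n ∈ S', gg ε hε n ≤ ∏ p ∈ T, (1 - gg ε hε p)⁻¹ := by
  have h := (EulerProduct.summable_and_hasSum_factoredNumbers_prod_filter_prime_geometric
    (f := (gg ε hε : ℕ →* ℝ)) (fun {p} hp => by
      have h0 : ‖gg ε hε p‖ < 1 := by
        rw [Real.norm_of_nonneg (gg_nonneg ε hε p)]; exact gg_lt_one ε hε hp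
      exact h0) T).2
  rw [Finset.filter_true_of_mem hT] at h
  have h2 := (hasSum_subtype_iff_indicator (f := fun n => gg ε hε n)).1 h
  have h3 := sum_le_hasSum S' (fun i _ => Set.indicator_nonneg (fun _ _ => gg_nonneg ε hε _) i) h2
  refine le_trans (le_of_eq ?_) h3
  apply Finset.sum_congr rfl
  intro n hn
  rw [Set.indicator_of_mem (hS n hn)]

/-- the number of the integers with a given set of prime factors -/
lemma cnt_T (ε : ℝ) (hε : 0 < ε) : ∃ C : ℝ, 0 < C ∧ ∀ (N : ℕ) (T : Finset ℕ), 1 ≤ N →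
    (((Finset.Icc 1 N).filter (fun n => n.primeFactors = T)).card : ℝ) ≤ C * (N : ℝ) ^ ε := by
  classical
  obtain ⟨P, hP⟩ := exists_P ε hε
  have hC1 : ∀ p : ℕ, 1 ≤ max 1 (gg ε hε p * (1 - gg ε hε p)⁻¹) := fun p => le_max_left _ _
  refine ⟨∏ p ∈ range P, max 1 (gg ε hε p * (1 - gg ε hε p)⁻¹),
    Finset.prod_pos (fun p _ => lt_of_lt_of_le one_pos (hC1 p)), ?_⟩
  intro N T hN
  have hN0 : (0 : ℝ) < N := by exact_mod_cast hN
  have hC0 : 0 < ∏ p ∈ range P, max 1 (gg ε hε p * (1 - gg ε hε p)⁻¹) :=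
    Finset.prod_pos (fun p _ => lt_of_lt_of_le one_pos (hC1 p))
  rcases ((Finset.Icc 1 N).filter (fun n => n.primeFactors = T)).eq_empty_or_nonempty with he | hne
  · rw [he, Finset.card_empty, Nat.cast_zero]
    positivity
  have hT : ∀ p ∈ T, p.Prime := by
    obtain ⟨n, hn⟩ := hne
    rw [Finset.mem_filter] at hn
    rw [← hn.2]
    intro p hp
    exact Nat.prime_of_mem_primeFactors hp
  set S := (Finset.Icc 1 N).filter (fun n => n.primeFactors = T) with hS
  set r := ∏ p ∈ T, p with hr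
  have hr0 : 0 < r := Finset.prod_pos (fun p hp => (hT p hp).pos)
  have hdiv : ∀ n ∈ S, r ∣ n := by
    intro n hn
    rw [hS, Finset.mem_filter] at hn
    rw [hr, ← hn.2]
    exact Nat.prod_primeFactors_dvd n
  have hmem : ∀ n ∈ S, 1 ≤ n ∧ n ≤ N := by
    intro n hn
    rw [hS, Finset.mem_filter, Finset.mem_Icc] at hn
    exact hn.1
  have e1 : ∑ n ∈ S, gg ε hε (n / r) ≤ ∏ p ∈ T, (1 - gg ε hε p)⁻¹ := by
    have : ∑ n ∈ S, gg ε hε (n / r) = ∑ n ∈ S.image (fun n => n / r), gg ε hε n := by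
      rw [Finset.sum_image]
      intro a ha b hb hab
      simp only at hab
      rw [← Nat.mul_div_cancel' (hdiv a ha), ← Nat.mul_div_cancel' (hdiv b hb), hab]
    rw [this]
    apply euler ε hε T _ hT
    intro n' hn'
    rw [Finset.mem_image] at hn'
    obtain ⟨n, hn, rfl⟩ := hn'
    rw [Nat.mem_factoredNumbers_iff_primeFactors_subset]
    have h1 := hmem n hn
    have h2 := Nat.le_of_dvd (by omega) (hdiv n hn)
    refine ⟨(Nat.div_pos h2 hr0).ne', ?_⟩
    have h3 : n.primeFactors = T := by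
      rw [hS, Finset.mem_filter] at hn
      exact hn.2
    rw [← h3]
    exact Nat.primeFactors_mono (Nat.div_dvd_of_dvd (hdiv n hn)) (by omega)
  have e2 : (S.card : ℝ) ≤ (N : ℝ) ^ ε * (gg ε hε r * ∑ n ∈ S, gg ε hε (n / r)) := by
    rw [Finset.mul_sum, Finset.mul_sum, Finset.card_eq_sum_ones, Nat.cast_sum]
    apply Finset.sum_le_sum
    intro n hn
    rw [← map_mul, Nat.mul_div_cancel' (hdiv n hn), gg_apply]
    have h1 := hmem n hn
    have h2 : (0 : ℝ) < n := by exact_mod_cast h1.1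
    rw [Real.rpow_neg h2.le, ← div_eq_mul_inv, Nat.cast_one, one_le_div (by positivity)]
    exact Real.rpow_le_rpow h2.le (by exact_mod_cast h1.2) hε.le
  have e3 : gg ε hε r * ∏ p ∈ T, (1 - gg ε hε p)⁻¹ = ∏ p ∈ T, (gg ε hε p * (1 - gg ε hε p)⁻¹) := by
    rw [hr, map_prod, Finset.prod_mul_distrib]
  have hx0 : ∀ p ∈ T, 0 ≤ gg ε hε p * (1 - gg ε hε p)⁻¹ := by
    intro p hp
    exact mul_nonneg (gg_nonneg ε hε p) (inv_nonneg.2 (by linarith [gg_lt_one ε hε (hT p hp)]))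
  have e4 : ∏ p ∈ T, (gg ε hε p * (1 - gg ε hε p)⁻¹) ≤
      ∏ p ∈ range P, max 1 (gg ε hε p * (1 - gg ε hε p)⁻¹) := by
    calc ∏ p ∈ T, (gg ε hε p * (1 - gg ε hε p)⁻¹)
        ≤ ∏ p ∈ T, max 1 (gg ε hε p * (1 - gg ε hε p)⁻¹) :=
          Finset.prod_le_prod hx0 (fun p _ => le_max_right _ _)
      _ = ∏ p ∈ T.filter (fun p => p < P), max 1 (gg ε hε p * (1 - gg ε hε p)⁻¹) := by
          symm
          apply Finset.prod_filter_of_ne
          intro p hp hne
          by_contra hcon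
          apply hne
          have h1 := hP p (by omega)
          have h2 := gg_nonneg ε hε p
          apply max_eq_left
          rw [← div_eq_mul_inv, div_le_one (by linarith)]
          linarith
      _ ≤ ∏ p ∈ range P, max 1 (gg ε hε p * (1 - gg ε hε p)⁻¹) := by
          have hsub : T.filter (fun p => p < P) ⊆ range P := by
            intro p hp
            rw [Finset.mem_filter] at hp
            exact Finset.mem_range.2 hp.2
          rw [← Finset.prod_sdiff hsub]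
          have h1 : (1 : ℝ) ≤ ∏ p ∈ range P \ T.filter (fun p => p < P),
              max 1 (gg ε hε p * (1 - gg ε hε p)⁻¹) :=
            Finset.prod_induction _ (fun x => 1 ≤ x)
              (fun a b ha hb => one_le_mul_of_one_le_of_one_le ha hb) le_rfl (fun p _ => hC1 p)
          exact le_mul_of_one_le_left
            (Finset.prod_nonneg (fun p _ => le_trans zero_le_one (hC1 p))) h1
  calc (S.card : ℝ) ≤ (N : ℝ) ^ ε * (gg ε hε r * ∑ n ∈ S, gg ε hε (n / r)) := e2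
    _ ≤ (N : ℝ) ^ ε * (gg ε hε r * ∏ p ∈ T, (1 - gg ε hε p)⁻¹) := by
        apply mul_le_mul_of_nonneg_left _ (by positivity)
        exact mul_le_mul_of_nonneg_left e1 (gg_nonneg ε hε r)
    _ = (N : ℝ) ^ ε * ∏ p ∈ T, (gg ε hε p * (1 - gg ε hε p)⁻¹) := by rw [e3]
    _ ≤ (N : ℝ) ^ ε * ∏ p ∈ range P, max 1 (gg ε hε p * (1 - gg ε hε p)⁻¹) :=
        mul_le_mul_of_nonneg_left e4 (by positivity)
    _ = _ := mul_comm _ _

end RAD

theorem rad_sound : S_RAD := by
  classical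
  intro m ε hm hε
  obtain ⟨C, hC, hCT⟩ := RAD.cnt_T ε hε
  refine ⟨C * 2 ^ m.primeFactors.card, by positivity, ?_⟩
  intro N R hN hR
  set S := (Finset.Icc 1 N).filter (fun n => (rad m n : ℝ) ≤ R) with hS
  let F : ℕ → Finset ℕ × ℕ := fun n => (n.primeFactors.filter (fun p => p ∣ m), rad m n)
  have hFT : ∀ n : ℕ, n.primeFactors = (F n).1 ∪ (F n).2.primeFactors := by
    intro n
    have h1 : (rad m n).primeFactors = n.primeFactors.filter (fun p => ¬ p ∣ m) := by
      unfold rad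
      apply Nat.primeFactors_prod
      intro p hp
      exact Nat.prime_of_mem_primeFactors (Finset.mem_filter.1 hp).1
    simp only [F, h1]
    exact (Finset.filter_union_filter_not_eq _ _).symm
  have h1 : S.card ≤ ⌊C * (N : ℝ) ^ ε⌋₊ * (S.image F).card := by
    apply Finset.card_le_mul_card_image
    intro b hb
    apply Nat.le_floor
    refine le_trans ?_ (hCT N (b.1 ∪ b.2.primeFactors) hN)
    rw [Nat.cast_le]
    apply Finset.card_le_card
    intro n hn
    rw [Finset.mem_filter, hS, Finset.mem_filter] at hn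
    rw [Finset.mem_filter]
    exact ⟨hn.1.1, by rw [hFT n, hn.2]⟩
  have h2 : (S.image F).card ≤ (m.primeFactors.powerset ×ˢ Finset.Icc 1 ⌊R⌋₊).card := by
    apply Finset.card_le_card
    intro b hb
    rw [Finset.mem_image] at hb
    obtain ⟨n, hn, rfl⟩ := hb
    rw [hS, Finset.mem_filter] at hn
    rw [Finset.mem_product, Finset.mem_powerset, Finset.mem_Icc]
    refine ⟨?_, ?_, Nat.le_floor hn.2⟩
    · intro p hp
      simp only [F, Finset.mem_filter] at hp
      rw [Nat.mem_primeFactors]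
      exact ⟨Nat.prime_of_mem_primeFactors hp.1, hp.2, hm.ne'⟩
    · exact Finset.prod_pos (fun p hp => (Nat.prime_of_mem_primeFactors
        (Finset.mem_filter.1 hp).1).pos)
  rw [Finset.card_product, Finset.card_powerset, Nat.card_Icc, Nat.add_sub_cancel] at h2
  have h3 : ((⌊R⌋₊ : ℕ) : ℝ) ≤ R := Nat.floor_le (by linarith)
  have h4 : ((⌊C * (N : ℝ) ^ ε⌋₊ : ℕ) : ℝ) ≤ C * (N : ℝ) ^ ε := Nat.floor_le (by positivity)
  calc (S.card : ℝ) ≤ ((⌊C * (N : ℝ) ^ ε⌋₊ * (2 ^ m.primeFactors.card * ⌊R⌋₊) : ℕ) : ℝ) := by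
        exact_mod_cast h1.trans (Nat.mul_le_mul_left _ h2)
    _ = (⌊C * (N : ℝ) ^ ε⌋₊ : ℝ) * (2 ^ m.primeFactors.card * (⌊R⌋₊ : ℝ)) := by push_cast; ring
    _ ≤ (C * (N : ℝ) ^ ε) * (2 ^ m.primeFactors.card * R) := by
        apply mul_le_mul h4 _ (by positivity) (by positivity)
        exact mul_le_mul_of_nonneg_left h3 (by positivity)
    _ = _ := by ring

end Pool.Agent.H16.LP
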