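import Pool.Agent.H16.LP.Stm

/-! # Project LP, stub SUB (helper44) -/

set_option autoImplicit false

namespace Pool.Agent.H16.LP

open Polynomial

theorem SUBaux.div (hD : S_DIV) (L : Type) [Field L] [CharZero L] (ι : Type) [DecidableEq ι]
    (u : Finset ι) (α : ι → L) : ∀ G : L[X],
    (∀ i, IsIntegral ℤ (((∏ i ∈ u, (X - C (α i))) * G).coeff i)) → ∀ i, IsIntegral ℤ (G.coeff i) := by
  induction u using Finset.induction_on with
  | empty =>
    intro G h i
    simpa using h i
  | insert k u hk ih =>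
    intro G h
    apply ih
    intro i
    refine hD L _ (α k) (fun i => ?_) i
    have := h i
    rw [Finset.prod_insert hk, mul_assoc] at this
    exact this

theorem sub_sound : S_SUB := by
  intro hD L _ _ ι _ s t α c hts h
  have h1 := SUBaux.div hD L ι (s \ t) α (C c * ∏ i ∈ t, (X - C (α i))) (fun i => by
    have h2 := h i
    rw [← Finset.prod_sdiff hts] at h2
    rwa [show (∏ i ∈ s \ t, (X - C (α i))) * (C c * ∏ i ∈ t, (X - C (α i))) =
      C c * ((∏ i ∈ s \ t, (X - C (α i))) * ∏ i ∈ t, (X - C (α i))) by ring])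
  have h3 := h1 0
  rw [mul_coeff_zero, coeff_C_zero, coeff_zero_eq_eval_zero, eval_prod] at h3
  simp only [eval_sub, eval_X, eval_C, zero_sub] at h3
  rw [Finset.prod_neg] at h3
  have h4 : c * ∏ i ∈ t, α i = (-1) ^ t.card * (c * ((-1) ^ t.card * ∏ i ∈ t, α i)) := by
    have h5 : ((-1 : L) ^ t.card) * (-1) ^ t.card = 1 := by
      rw [← mul_pow]
      simp
    linear_combination (-(c * ∏ i ∈ t, α i)) * h5
  rw [h4]
  exact (isIntegral_one.neg.pow _).mul h3

end Pool.Agent.H16.LP
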