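import Pool.Agent.H16.LP.Stm3

/-!
# Project LP: a simple zero above a prime (stub LP-ADD)
-/

set_option autoImplicit false

namespace Pool.Agent.H16.LP

open Polynomial NumberField IsDedekindDomain

namespace ADDaux

variable {K : Type} [Field K] [NumberField K]

theorem exists_place (J : Ideal (𝓞 K)) (hJ : J ≠ ⊥) (p : ℕ) (hp : p.Prime)
    (h : p ∣ Ideal.absNorm J) :
    ∃ v : HeightOneSpectrum (𝓞 K), J ≤ v.asIdeal ∧ ((p : ℕ) : 𝓞 K) ∈ v.asIdeal := by
  by_cases ht : J ⊔ Ideal.span {((p : ℕ) : 𝓞 K)} = ⊤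
  · exfalso
    have hfact : Fact p.Prime := ⟨hp⟩
    have hfin : Finite (𝓞 K ⧸ J) := Ideal.finiteQuotientOfFreeOfNeBot J hJ
    have : Fintype (𝓞 K ⧸ J) := Fintype.ofFinite _
    have hc : p ∣ Fintype.card (𝓞 K ⧸ J) := by
      rw [← Nat.card_eq_fintype_card]
      exact h
    obtain ⟨x, hx⟩ := exists_prime_addOrderOf_dvd_card p hc
    obtain ⟨y, rfl⟩ := Ideal.Quotient.mk_surjective x
    have h1 : (p : 𝓞 K) * y ∈ J := by
      have h2 := addOrderOf_nsmul_eq_zero (Ideal.Quotient.mk J y)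
      rw [hx, ← map_nsmul, nsmul_eq_mul] at h2
      exact Ideal.Quotient.eq_zero_iff_mem.1 h2
    have h2 : (1 : 𝓞 K) ∈ J ⊔ Ideal.span {((p : ℕ) : 𝓞 K)} := by
      rw [ht]; trivial
    obtain ⟨a, ha, b, hb, hab⟩ := Submodule.mem_sup.1 h2
    obtain ⟨c, rfl⟩ := Ideal.mem_span_singleton'.1 hb
    have h3 : y ∈ J := by
      have h4 : y = a * y + c * ((p : 𝓞 K) * y) := by
        linear_combination (-y) * hab
      rw [h4]
      exact J.add_mem (J.mul_mem_right _ ha) (J.mul_mem_left _ h1)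
    rw [Ideal.Quotient.eq_zero_iff_mem.2 h3, addOrderOf_zero] at hx
    exact hp.one_lt.ne hx
  · obtain ⟨M, hM, hle⟩ := Ideal.exists_le_maximal _ ht
    refine ⟨⟨M, hM.isPrime, fun h0 => hJ ?_⟩, le_sup_left.trans hle, ?_⟩
    · rw [eq_bot_iff, ← h0]
      exact le_sup_left.trans hle
    · exact hle (Ideal.mem_sup_right (Ideal.mem_span_singleton_self _))

theorem dvd_absNorm (v : HeightOneSpectrum (𝓞 K)) (p : ℕ) (hp : p.Prime)
    (h : ((p : ℕ) : 𝓞 K) ∈ v.asIdeal) : p ∣ Ideal.absNorm v.asIdeal := by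
  have h1 : Ideal.absNorm v.asIdeal ∣ p ^ Module.finrank ℤ (𝓞 K) := by
    have h2 : v.asIdeal ∣ Ideal.span {((p : ℕ) : 𝓞 K)} := by
      rw [Ideal.dvd_iff_le, Ideal.span_singleton_le_iff_mem]
      exact h
    have h3 := Ideal.absNorm_dvd_absNorm_of_le (Ideal.dvd_iff_le.1 h2)
    rw [Ideal.absNorm_span_singleton] at h3
    have h4 : (Algebra.norm ℤ ((p : ℕ) : 𝓞 K)) = (p : ℤ) ^ Module.finrank ℤ (𝓞 K) := by
      have := Algebra.norm_algebraMap (S := 𝓞 K) (p : ℤ)
      simpa using this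
    rw [h4, Int.natAbs_pow, Int.natAbs_natCast] at h3
    exact h3
  obtain ⟨k, -, hk⟩ := (Nat.dvd_prime_pow hp).1 h1
  have h2 := HeightOneSpectrum.one_lt_absNorm v
  rw [hk] at h2 ⊢
  rcases Nat.eq_zero_or_pos k with h3 | h3
  · rw [h3, pow_zero] at h2
    exact absurd h2 (lt_irrefl 1)
  · exact dvd_pow_self p h3.ne'

end ADDaux

open ADDaux in
/-- **ADD** -/
theorem add_sound : S_ADD := by
  intro hmin K _ _ d a j p hR ha hp hpa hpa2
  have ha0 : a ≠ 0 := by
    rintro rfl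
    simp at ha
  obtain ⟨-, hdeg, hpoly⟩ := hmin K d a j hR ha0
  rw [ha, Int.cast_one, C_1, one_mul] at hpoly
  -- the constant coefficient
  have hc0 : (minpoly ℚ j).coeff 0 = ((a 0 : ℤ) : ℚ) := by
    rw [← hpoly, finsetSum_coeff, Finset.sum_eq_single (0 : Fin (d + 1))]
    · rw [coeff_monomial, if_pos (by simp)]
    · intro i _ hi
      rw [coeff_monomial, if_neg]
      intro h
      exact hi (Fin.ext (by simpa using h))
    · intro h
      exact absurd (Finset.mem_univ _) h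
  -- `j` is integral over `ℤ`
  have hint : IsIntegral ℤ j := by
    refine ⟨∑ i : Fin (d + 1), monomial (i : ℕ) (a i), ?_, ?_⟩
    · have h1 : (∑ i : Fin (d + 1), monomial (i : ℕ) (a i)).coeff d = 1 := by
        rw [finsetSum_coeff, Finset.sum_eq_single (Fin.last d)]
        · rw [coeff_monomial, if_pos (by simp), ha]
        · intro i _ hi
          rw [coeff_monomial, if_neg]
          intro h
          exact hi (Fin.ext (by simpa using h))
        · intro h
          exact absurd (Finset.mem_univ _) h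
      refine monic_of_natDegree_le_of_coeff_eq_one d ?_ h1
      refine natDegree_sum_le_of_forall_le _ _ fun i _ => ?_
      exact (natDegree_monomial_le _).trans (Nat.lt_succ_iff.1 i.2)
    · rw [eval₂_finsetSum]
      rw [← hR.root]
      refine Finset.sum_congr rfl fun i _ => ?_
      rw [eval₂_monomial]
      simp
  have hintQ : IsIntegral ℚ j := hint.tower_top
  -- the norm
  have hadj : Algebra.adjoin ℚ {j} = ⊤ := by
    have h1 := hR.gen
    have h2 := IntermediateField.adjoin_simple_toSubalgebra_of_isAlgebraic hintQ.isAlgebraic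
    rw [← h2, h1, IntermediateField.top_toSubalgebra]
  have hN : Algebra.norm ℚ j = (-1) ^ d * ((a 0 : ℤ) : ℚ) := by
    have h1 := Algebra.PowerBasis.norm_gen_eq_coeff_zero_minpoly
      (PowerBasis.ofAdjoinEqTop hintQ hadj)
    rw [PowerBasis.ofAdjoinEqTop_gen, PowerBasis.ofAdjoinEqTop_dim, hdeg, hc0] at h1
    exact h1
  set θ : 𝓞 K := ⟨j, hint⟩ with hθ
  have hθj : (θ : K) = j := rfl
  have hNθ : (Algebra.norm ℤ θ).natAbs = (a 0).natAbs := by
    have h1 : ((Algebra.norm ℤ θ : ℤ) : ℚ) = (((-1) ^ d * a 0 : ℤ) : ℚ) := by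
      rw [Algebra.coe_norm_int, hθj, hN]
      push_cast
      rfl
    have h2 : Algebra.norm ℤ θ = (-1) ^ d * a 0 := by exact_mod_cast h1
    rw [h2, Int.natAbs_mul, Int.natAbs_pow]
    simp
  have hθ0 : θ ≠ 0 := by
    intro h
    rw [h, Algebra.norm_zero, Int.natAbs_zero] at hNθ
    have h1 : a 0 = 0 := Int.natAbs_eq_zero.1 hNθ.symm
    exact hpa2 (by rw [h1]; exact dvd_zero _)
  have hJ : Ideal.span {θ} ≠ ⊥ := mt Submodule.span_singleton_eq_bot.mp hθ0
  have hpN : p ∣ Ideal.absNorm (Ideal.span {θ}) := by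
    rw [Ideal.absNorm_span_singleton, hNθ]
    exact Int.natCast_dvd.1 hpa
  obtain ⟨v, hv, hpv⟩ := exists_place _ hJ p hp hpN
  refine ⟨v, hpv, ?_⟩
  have hd1 : v.asIdeal ^ 1 ∣ Ideal.span {θ} := by
    rw [pow_one]
    exact Ideal.dvd_iff_le.2 hv
  have hd2 : ¬ v.asIdeal ^ (1 + 1) ∣ Ideal.span {θ} := by
    intro h
    have h1 := Ideal.absNorm_dvd_absNorm_of_le (Ideal.dvd_iff_le.1 h)
    rw [map_pow, Ideal.absNorm_span_singleton, hNθ] at h1
    have h2 : p ^ 2 ∣ (a 0).natAbs := (pow_dvd_pow_of_dvd (dvd_absNorm v p hp hpv) 2).trans h1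
    apply hpa2
    have h3 := Int.natCast_dvd.2 h2
    push_cast at h3
    exact h3
  have hm : multiplicity v.asIdeal (Ideal.span {θ}) = 1 :=
    multiplicity_eq_of_dvd_of_not_dvd hd1 hd2
  have h1 := FinitePlace.apply_mul_absNorm_pow_eq_one (FinitePlace.mk v) hθ0
  rw [FinitePlace.maximalIdeal_mk, hm, pow_one] at h1
  exact eq_inv_of_mul_eq_one_left h1

end Pool.Agent.H16.LP
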