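import Pool.Agent.H16.LP.Stm

/-!
# LP-ARC: the archimedean part of the height
-/

set_option autoImplicit false

namespace Pool.Agent.H16.LP

open Polynomial NumberField IsDedekindDomain

namespace ARC

open scoped Classical in
lemma prod_places {K : Type} [Field K] [NumberField K] (g : InfinitePlace K → ℝ) :
    ∏ φ : K →+* ℂ, g (InfinitePlace.mk φ) = ∏ v : InfinitePlace K, g v ^ v.mult := by
  rw [← Finset.prod_fiberwise (s := (Finset.univ : Finset (K →+* ℂ)))
    (g := fun φ => InfinitePlace.mk φ)]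
  refine Finset.prod_congr rfl fun v _ => ?_
  rw [Finset.prod_congr rfl (g := fun _ => g v) (fun φ hφ => by
    rw [(Finset.mem_filter.1 hφ).2]), Finset.prod_const, InfinitePlace.card_filter_mk_eq]

end ARC

open ARC in
theorem arc_sound : S_ARC := by
  intro hMIN hEMB K _ _ d a j H hR ha hH
  classical
  obtain ⟨hlast, -, hpoly⟩ := hMIN K d a j hR ha
  have hemb := hEMB K j hR.gen
  obtain ⟨P, hP⟩ : ∃ P : ℂ[X], P = ∑ i : Fin (d + 1), monomial (i : ℕ) ((a i : ℤ) : ℂ) := ⟨_, rfl⟩
  have hPe : P = C ((a (Fin.last d) : ℤ) : ℂ) * ∏ φ : K →+* ℂ, (X - C (φ j)) := by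
    have h1 := congrArg (Polynomial.map (algebraMap ℚ ℂ)) hpoly
    rw [Polynomial.map_mul, hemb, Polynomial.map_sum, Polynomial.map_C,
      map_intCast (algebraMap ℚ ℂ)] at h1
    simp only [Polynomial.map_monomial, map_intCast (algebraMap ℚ ℂ)] at h1
    rw [hP, h1]
  have hne : ((a (Fin.last d) : ℤ) : ℂ) ≠ 0 := by exact_mod_cast hlast
  have hprod_ne : (∏ φ : K →+* ℂ, (X - C (φ j))) ≠ (0 : ℂ[X]) :=
    Finset.prod_ne_zero_iff.2 fun φ _ => X_sub_C_ne_zero _
  -- the Mahler measure
  have hM : P.mahlerMeasure = |(a (Fin.last d) : ℝ)| *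
      ∏ v : InfinitePlace K, max (v j) 1 ^ v.mult := by
    rw [mahlerMeasure_eq_leadingCoeff_mul_prod_roots]
    congr 1
    · have : P.leadingCoeff = ((a (Fin.last d) : ℤ) : ℂ) := by
        rw [hPe, leadingCoeff_mul, leadingCoeff_C, leadingCoeff_prod]
        simp
      rw [this]
      simp
    · have hroots : P.roots = (Finset.univ : Finset (K →+* ℂ)).val.map (fun φ => φ j) := by
        rw [hPe, roots_C_mul _ hne, roots_prod _ _ hprod_ne]
        simp only [roots_X_sub_C]
        rw [Multiset.bind_singleton]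
      rw [hroots, Multiset.map_map, ← prod_places (fun v => max (v j) 1)]
      change ∏ φ : K →+* ℂ, max 1 ‖φ j‖ = _
      refine Finset.prod_congr rfl fun φ _ => ?_
      rw [max_comm]
      rfl
  rw [← hM]
  refine (mahlerMeasure_le_sum_norm_coeff P).trans ?_
  have hcoeff : ∀ n, P.coeff n = if h : n < d + 1 then ((a ⟨n, h⟩ : ℤ) : ℂ) else 0 := by
    intro n
    rw [hP, finsetSum_coeff]
    simp only [coeff_monomial]
    split_ifs with h
    · rw [Finset.sum_eq_single (⟨n, h⟩ : Fin (d + 1))]
      · simp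
      · intro b _ hb
        rw [if_neg]
        intro h1
        exact hb (Fin.ext h1)
      · intro h1
        exact absurd (Finset.mem_univ _) h1
    · refine Finset.sum_eq_zero fun i _ => ?_
      rw [if_neg]
      intro h1
      exact h (h1 ▸ i.2)
  have hH0 : 0 ≤ H := (abs_nonneg _).trans (hH 0)
  have hsup : P.support ⊆ Finset.range (d + 1) := by
    intro n hn
    rw [mem_support_iff, hcoeff] at hn
    rw [Finset.mem_range]
    by_contra h
    exact hn (dif_neg h)
  rw [sum_def]
  calc ∑ n ∈ P.support, ‖P.coeff n‖ ≤ ∑ n ∈ Finset.range (d + 1), ‖P.coeff n‖ :=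
        Finset.sum_le_sum_of_subset_of_nonneg hsup fun _ _ _ => norm_nonneg _
    _ ≤ ∑ n ∈ Finset.range (d + 1), H := by
        refine Finset.sum_le_sum fun n hn => ?_
        rw [Finset.mem_range] at hn
        rw [hcoeff, dif_pos hn]
        simpa using hH ⟨n, hn⟩
    _ = (d + 1) * H := by simp

end Pool.Agent.H16.LP
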