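import Pool.Agent.H16.LP.Stm

set_option autoImplicit false

namespace Pool.Agent.H16.LP

theorem cnt_sound : S_CNT := by
  classical
  intro hRAD d m ρ ε c hm hρ hε hc
  obtain ⟨C, hC, hRAD⟩ := hRAD m ε hm hε
  refine ⟨3 ^ d * (2 * (C * c)), by positivity, fun H hH => ?_⟩
  have hH0 : (1 : ℝ) ≤ (H : ℝ) := by exact_mod_cast hH
  have hHpos : (0 : ℝ) < (H : ℝ) := by linarith
  set R : ℝ := c * (H : ℝ) ^ ρ with hR
  have hR1 : 1 ≤ R := by
    have := Real.one_le_rpow hH0 hρ
    nlinarith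
  have h1 := hRAD H R hH hR1
  set F := (Finset.Icc 1 H).filter (fun n => (rad m n : ℝ) ≤ R) with hF
  set T : Finset ℤ := (F.image (fun n : ℕ => (n : ℤ))) ∪ (F.image (fun n : ℕ => -(n : ℤ))) with hT
  have hTc : T.card ≤ 2 * F.card := by
    refine (Finset.card_union_le _ _).trans ?_
    have h2 := Finset.card_image_le (s := F) (f := fun n : ℕ => (n : ℤ))
    have h3 := Finset.card_image_le (s := F) (f := fun n : ℕ => -(n : ℤ))
    omega
  set B : Finset (Fin (d + 1) → ℤ) :=
    Fintype.piFinset (fun i => if i = Fin.last d then T else Finset.Icc (-(H : ℤ)) H) with hB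
  set S : Set (Fin (d + 1) → ℤ) := {a | (∀ i, |a i| ≤ H) ∧ a (Fin.last d) ≠ 0 ∧
      (rad m (a (Fin.last d)).natAbs : ℝ) ≤ R} with hS
  have hsub : S ⊆ (B : Set (Fin (d + 1) → ℤ)) := by
    rintro a ⟨ha1, ha2, ha3⟩
    rw [Finset.mem_coe, hB, Fintype.mem_piFinset]
    intro i
    by_cases hi : i = Fin.last d
    · rw [if_pos hi, hi]
      have hn : (a (Fin.last d)).natAbs ∈ F := by
        rw [hF, Finset.mem_filter, Finset.mem_Icc]
        refine ⟨⟨Int.natAbs_pos.2 ha2, ?_⟩, ha3⟩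
        have := ha1 (Fin.last d)
        rw [Int.abs_eq_natAbs] at this
        exact_mod_cast this
      rcases Int.natAbs_eq (a (Fin.last d)) with h | h
      · exact Finset.mem_union_left _ (Finset.mem_image.2 ⟨_, hn, h.symm⟩)
      · exact Finset.mem_union_right _ (Finset.mem_image.2 ⟨_, hn, h.symm⟩)
    · rw [if_neg hi, Finset.mem_Icc]
      exact abs_le.1 (ha1 i)
  have hcard : B.card = (2 * H + 1) ^ d * T.card := by
    rw [hB, Fintype.card_piFinset, Fin.prod_univ_castSucc, if_pos rfl]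
    congr 1
    have h4 : ∀ i : Fin d, (if i.castSucc = Fin.last d then T else Finset.Icc (-(H : ℤ)) H).card =
        2 * H + 1 := by
      intro i
      rw [if_neg (Fin.castSucc_lt_last i).ne, Int.card_Icc]
      omega
    rw [Finset.prod_congr rfl (fun i _ => h4 i), Finset.prod_const, Finset.card_univ,
      Fintype.card_fin]
  have hfin : S.Finite := B.finite_toSet.subset hsub
  refine ⟨hfin, ?_⟩
  have h5 : S.ncard ≤ B.card := by
    have := Set.ncard_le_ncard hsub B.finite_toSet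
    rwa [Set.ncard_coe_finset] at this
  have h6 : (B.card : ℝ) ≤ (3 * H) ^ d * (2 * (C * R * (H : ℝ) ^ ε)) := by
    rw [hcard]
    push_cast
    have h7 : (2 * (H : ℝ) + 1) ^ d ≤ (3 * H) ^ d := by gcongr; linarith
    have h8 : (T.card : ℝ) ≤ 2 * (C * R * (H : ℝ) ^ ε) := by
      have h9 : (T.card : ℝ) ≤ 2 * (F.card : ℝ) := by exact_mod_cast hTc
      linarith
    exact mul_le_mul h7 h8 (Nat.cast_nonneg _) (by positivity)
  have h10 : (3 * (H : ℝ)) ^ d * (2 * (C * R * (H : ℝ) ^ ε)) =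
      3 ^ d * (2 * (C * c)) * (H : ℝ) ^ (d + ρ + ε) := by
    rw [Real.rpow_add hHpos, Real.rpow_add hHpos, Real.rpow_natCast, hR, mul_pow]
    ring
  rw [← h10]
  have h11 : (S.ncard : ℝ) ≤ (B.card : ℝ) := by exact_mod_cast h5
  exact h11.trans h6

end Pool.Agent.H16.LP
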