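import Pool.Agent.H16.LP.Stm

set_option autoImplicit false

namespace Pool.Agent.H16.LP

open Polynomial NumberField IsDedekindDomain

namespace PHTaux

/-- at a pole the absolute value is at least the norm of the place -/
theorem norm_le (K : Type) [Field K] [NumberField K] (v : HeightOneSpectrum (𝓞 K)) (x : K)
    (h : 1 < FinitePlace.mk v x) : (Ideal.absNorm v.asIdeal : ℝ) ≤ FinitePlace.mk v x := by
  have hx : x ≠ 0 := by
    rintro rfl
    rw [map_zero] at h
    linarith
  have hv : v.valuation K x ≠ 0 := ((v.valuation K).ne_zero_iff).2 hx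
  have h1 : FinitePlace.mk v x =
      ((Ideal.absNorm v.asIdeal : ℝ)) ^ (Multiplicative.toAdd (WithZero.unzero hv)) := by
    rw [FinitePlace.mk_apply, FinitePlace.norm_embedding',
      WithZeroMulInt.toNNReal_neg_apply _ hv]
    push_cast
    rfl
  have hN : (1 : ℝ) < (Ideal.absNorm v.asIdeal : ℝ) := by
    exact_mod_cast HeightOneSpectrum.one_lt_absNorm v
  rw [h1] at h ⊢
  have h2 : 0 < Multiplicative.toAdd (WithZero.unzero hv) := by
    by_contra h3
    have h4 : Multiplicative.toAdd (WithZero.unzero hv) ≤ 0 := not_lt.1 h3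
    have h5 := zpow_le_zpow_right₀ hN.le h4
    rw [zpow_zero] at h5
    linarith
  calc (Ideal.absNorm v.asIdeal : ℝ) = (Ideal.absNorm v.asIdeal : ℝ) ^ (1 : ℤ) := (zpow_one _).symm
    _ ≤ _ := zpow_le_zpow_right₀ hN.le (by omega)

end PHTaux

open Real in
theorem pht_sound : S_PHT := by
  classical
  intro K _ _ j A hA
  rw [NumberField.logHeight₁_eq]
  have h0 : 0 ≤ ∑ v : InfinitePlace K, (v.mult : ℝ) * log⁺ (v j) :=
    Finset.sum_nonneg fun v _ => mul_nonneg (Nat.cast_nonneg _) posLog_nonneg
  have hfin : (Function.support fun v : FinitePlace K => log⁺ (v j)).Finite := by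
    by_cases hj : j = 0
    · subst hj
      convert Set.finite_empty
      ext v
      simp
    · refine Set.Finite.subset (FinitePlace.hasFiniteMulSupport hj) ?_
      intro v hv hv1
      apply hv
      simp only at hv1
      simp only [hv1]
      simp
  have h1 : ∑ v ∈ A.image (fun v => FinitePlace.mk v), log⁺ (v j) ≤
      ∑ᶠ v : FinitePlace K, log⁺ (v j) := by
    rw [finsum_eq_sum_of_support_subset (s := hfin.toFinset ∪ A.image (fun v => FinitePlace.mk v))]
    · refine Finset.sum_le_sum_of_subset_of_nonneg Finset.subset_union_right ?_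
      intro v _ _
      exact posLog_nonneg
    · intro v hv
      simp only [Finset.coe_union, Set.Finite.coe_toFinset]
      exact Or.inl hv
  rw [Finset.sum_image (fun v _ w _ h => FinitePlace.mk_eq_iff.1 h)] at h1
  have h2 : ∑ v ∈ A, Real.log (Ideal.absNorm v.asIdeal) ≤ ∑ v ∈ A, log⁺ (FinitePlace.mk v j) := by
    refine Finset.sum_le_sum fun v hv => ?_
    have h3 := PHTaux.norm_le K v j (hA v hv)
    have hN : (1 : ℝ) < (Ideal.absNorm v.asIdeal : ℝ) := by
      exact_mod_cast HeightOneSpectrum.one_lt_absNorm v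
    refine (Real.log_le_log (by linarith) h3).trans ?_
    exact le_max_right _ _
  linarith

end Pool.Agent.H16.LP
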