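import Pool.Agent.H16.LP.Stm

set_option autoImplicit false

namespace Pool.Agent.H16.LP

open NumberField IsDedekindDomain

namespace PSUMaux

/-- a maximal ideal does not contain two different primes -/
theorem prime_unique (K : Type) [Field K] [NumberField K] (v : HeightOneSpectrum (𝓞 K))
    (p q : ℕ) (hp : p.Prime) (hq : q.Prime) (hpv : ((p : ℕ) : 𝓞 K) ∈ v.asIdeal)
    (hqv : ((q : ℕ) : 𝓞 K) ∈ v.asIdeal) : p = q := by
  by_contra hne
  have hc : Nat.Coprime p q := (Nat.coprime_primes hp hq).2 hne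
  have hci : IsCoprime (p : ℤ) (q : ℤ) := Nat.isCoprime_iff_coprime.2 hc
  obtain ⟨a, b, hab⟩ := hci
  have h1 : (1 : 𝓞 K) ∈ v.asIdeal := by
    have := congrArg (fun z : ℤ => (z : 𝓞 K)) hab
    simp only [Int.cast_add, Int.cast_mul, Int.cast_natCast, Int.cast_one] at this
    rw [← this]
    exact v.asIdeal.add_mem (v.asIdeal.mul_mem_left _ hpv) (v.asIdeal.mul_mem_left _ hqv)
  exact v.isPrime.ne_top ((Ideal.eq_top_iff_one _).2 h1)

/-- the norm is at least `p` -/
theorem le_absNorm (K : Type) [Field K] [NumberField K] (v : HeightOneSpectrum (𝓞 K))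
    (p : ℕ) (hp : p.Prime) (hpv : ((p : ℕ) : 𝓞 K) ∈ v.asIdeal) :
    p ≤ Ideal.absNorm v.asIdeal := by
  have h0 : Ideal.absNorm v.asIdeal ≠ 0 := by
    rw [Ne, Ideal.absNorm_eq_zero_iff]
    exact v.ne_bot
  have h1 : Ideal.absNorm v.asIdeal ≠ 1 := by
    rw [Ne, Ideal.absNorm_eq_one_iff]
    exact v.isPrime.ne_top
  by_cases h : p ∣ Ideal.absNorm v.asIdeal
  · exact Nat.le_of_dvd (Nat.pos_of_ne_zero h0) h
  exfalso
  have hmem := Ideal.absNorm_mem v.asIdeal
  have hc : Nat.Coprime p (Ideal.absNorm v.asIdeal) := (Nat.Prime.coprime_iff_not_dvd hp).2 h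
  have hci : IsCoprime (p : ℤ) (Ideal.absNorm v.asIdeal : ℤ) := Nat.isCoprime_iff_coprime.2 hc
  obtain ⟨a, b, hab⟩ := hci
  have h1' : (1 : 𝓞 K) ∈ v.asIdeal := by
    have := congrArg (fun z : ℤ => (z : 𝓞 K)) hab
    simp only [Int.cast_add, Int.cast_mul, Int.cast_natCast, Int.cast_one] at this
    rw [← this]
    exact v.asIdeal.add_mem (v.asIdeal.mul_mem_left _ hpv) (v.asIdeal.mul_mem_left _ hmem)
  exact v.isPrime.ne_top ((Ideal.eq_top_iff_one _).2 h1')

end PSUMaux

open PSUMaux in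
theorem psum_sound : S_PSUM := by
  intro K _ _ A P hP
  classical
  rcases P.eq_empty_or_nonempty with rfl | ⟨p₀, hp₀⟩
  · rw [Finset.sum_empty]
    exact Finset.sum_nonneg fun v _ => Real.log_natCast_nonneg _
  obtain ⟨_, v₀, -, -⟩ := hP p₀ hp₀
  haveI : Nonempty (HeightOneSpectrum (𝓞 K)) := ⟨v₀⟩
  choose! f hf using fun p hp => (hP p hp).2
  have hinj : Set.InjOn f (P : Set ℕ) := by
    intro p hp q hq hpq
    have h1 := (hf p hp).2
    have h2 := (hf q hq).2
    rw [← hpq] at h2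
    exact prime_unique K (f p) p q (hP p hp).1 (hP q hq).1 h1 h2
  calc ∑ p ∈ P, Real.log p ≤ ∑ p ∈ P, Real.log (Ideal.absNorm (f p).asIdeal) := by
        refine Finset.sum_le_sum fun p hp => ?_
        refine Real.log_le_log (by exact_mod_cast (hP p hp).1.pos) ?_
        exact_mod_cast le_absNorm K (f p) p (hP p hp).1 (hf p hp).2
    _ = ∑ v ∈ P.image f, Real.log (Ideal.absNorm v.asIdeal) := by
        rw [Finset.sum_image hinj]
    _ ≤ ∑ v ∈ A, Real.log (Ideal.absNorm v.asIdeal) := by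
        refine Finset.sum_le_sum_of_subset_of_nonneg ?_ ?_
        · intro v hv
          obtain ⟨p, hp, rfl⟩ := Finset.mem_image.1 hv
          exact (hf p hp).1
        · intro v _ _
          exact Real.log_natCast_nonneg _

end Pool.Agent.H16.LP
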