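import Pool.Agent.H16.LP.Asm
import Pool.Agent.H16.LP.MIN
import Pool.Agent.H16.LP.EMB
import Pool.Agent.H16.LP.DIV
import Pool.Agent.H16.LP.SUB
import Pool.Agent.H16.LP.NRM
import Pool.Agent.H16.LP.FIN
import Pool.Agent.H16.LP.ARC
import Pool.Agent.H16.LP.POL
import Pool.Agent.H16.LP.PHT
import Pool.Agent.H16.LP.PSUM
import Pool.Agent.H16.LP.PM
import Pool.Agent.H16.LP.RAD
import Pool.Agent.H16.LP.CNT

/-!
# PROJECT LP (helper16): the theorem without hypotheses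
-/

set_option autoImplicit false

namespace Pool.Agent.H16.LP

open Polynomial NumberField IsDedekindDomain

theorem few_exc (d m : ℕ) (θ κ ε : ℝ) (hm : 0 < m) (hθ : 0 < θ) (hθ1 : θ ≤ 1)
    (hκ : 0 ≤ κ) (hε : 0 < ε) (E : ℕ → Set (Fin (d + 1) → ℤ))
    (hE : ∀ H a, a ∈ E H → (∀ i, |a i| ≤ H) ∧ (∀ p : ℕ, p.Prime → ∃ i, ¬ (p : ℤ) ∣ a i) ∧
      ∃ (K : Type) (_ : Field K) (_ : NumberField K) (j : K), Rt K d a j ∧ j ≠ 0 ∧ j ≠ 1728 ∧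
        ¬ Pool.Agent.H16.LA.UM m κ ((θ / m) ^ 6 / 290000) (28 * m ^ 2 / θ ^ 2) j) :
    ∃ C : ℝ, 0 < C ∧ ∀ H : ℕ, 1 ≤ H → (E H).Finite ∧
      ((E H).ncard : ℝ) ≤ C * (H : ℝ) ^ (d + θ + κ + ε) :=
  few min_sound emb_sound div_sound sub_sound nrm_sound fin_sound arc_sound pol_sound pht_sound
    psum_sound pm_sound rad_sound cnt_sound d m θ κ ε hm hθ hθ1 hκ hε E hE

end Pool.Agent.H16.LP
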