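import Pool.Agent.H16.LP.Stm2

/-! # Project LP, stub TWO (helper44) -/

set_option autoImplicit false

namespace Pool.Agent.H16.LP

open NumberField IsDedekindDomain Finset Pool.Agent.H691R3 Pool.Agent.W223.AK
  Pool.Agent.Y733.LS Pool.Agent.Y733.UD

namespace TWOaux

variable {K : Type} [Field K] [NumberField K]

/-- at a simple pole not above `6` is `|4 α + 3| < 1` -/
theorem loc (α : K) (hg : (α + 3) ^ 2 * (4 * α + 3) ≠ 0) (v : Pr K) (h : Sp (jt α) v) :
    fv v (4 * α + 3) < 1 := by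
  obtain ⟨h2, h3, hj⟩ := h
  have hN := Nv_one_lt v
  have hna : Na (fv v) := fv_Na v
  have hα3 : α + 3 ≠ 0 := fun h => hg (by rw [h]; ring)
  have h4α : 4 * α + 3 ≠ 0 := fun h => hg (by rw [h]; ring)
  have h4 : fv v (4 : K) = 1 := by
    rw [show (4 : K) = 2 * 2 by norm_num, map_mul, h2, one_mul]
  have h6912 : fv v (6912 : K) = 1 := by
    rw [show (6912 : K) = 2 ^ 8 * 3 ^ 3 by norm_num, map_mul, map_pow, map_pow, h2, h3]
    norm_num
  have hjv : fv v (jt α) = fv v α ^ 3 / (fv v (α + 3) ^ 2 * fv v (4 * α + 3)) := by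
    unfold jt
    rw [map_div₀, map_mul, map_mul, map_pow, map_pow, h6912, one_mul]
  have hp3 : 0 < fv v (α + 3) := (fv v).pos hα3
  have hp4 : 0 < fv v (4 * α + 3) := (fv v).pos h4α
  by_contra hcon
  push Not at hcon
  rcases lt_or_ge 1 (fv v α) with hA | hA
  · -- `|α| > 1`
    have e1 : fv v (α + 3) = fv v α := hna.eq (by rw [h3]; exact hA)
    have e2 : fv v (4 * α + 3) = fv v α := by
      have e3 : fv v (4 * α) = fv v α := by rw [map_mul, h4, one_mul]
      rw [hna.eq (by rw [h3, e3]; exact hA), e3]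
    rw [hjv, e1, e2] at hj
    have hA0 : fv v α ≠ 0 := (by linarith : (0 : ℝ) < fv v α).ne'
    have h5 : fv v α ^ 3 / (fv v α ^ 2 * fv v α) = 1 := by
      rw [← pow_succ]
      exact div_self (pow_ne_zero _ hA0)
    rw [h5] at hj
    linarith
  · have e2 : fv v (4 * α + 3) ≤ 1 :=
      hna.le_add (by rw [map_mul, h4, one_mul]; exact hA) h3.le
    have e3 : fv v (4 * α + 3) = 1 := le_antisymm e2 hcon
    have e4 : fv v (α + 3) ≤ 1 := hna.le_add hA h3.le
    rw [hjv, e3, mul_one] at hj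
    rcases e4.lt_or_eq with h5 | h5
    · have e5 : fv v α = 1 := by
        apply le_antisymm hA
        by_contra hlt
        push Not at hlt
        have h6 : fv v ((α + 3) - α) < 1 := hna.lt_sub h5 hlt
        rw [show α + 3 - α = 3 by ring, h3] at h6
        exact lt_irrefl _ h6
      obtain ⟨m, hm⟩ := fv_zpow v hα3
      rw [e5, hm, one_pow, ← zpow_natCast, ← zpow_mul, one_div, ← zpow_neg] at hj
      have h6 : (Nv v) ^ (-(m * ((2 : ℕ) : ℤ))) = (Nv v) ^ (1 : ℤ) := by rw [hj, zpow_one]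
      have h7 := zpow_right_injective₀ (by linarith : 0 < Nv v) hN.ne' h6
      push_cast at h7
      omega
    · rw [h5, one_pow, div_one] at hj
      have h6 : fv v α ^ 3 ≤ 1 := pow_le_one₀ ((fv v).nonneg _) hA
      linarith

/-- the height of `4 α + 3` -/
theorem height (α : K) : Height.logHeight₁ (4 * α + 3) ≤
    ht α + Module.finrank ℚ K * Real.log 7 := by
  have e1 : ht α + Module.finrank ℚ K * Real.log 7 =
      Sm (fun w : InfinitePlace K => Real.log (max (w.1 α) 1) + Real.log 7)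
        (fun v : Pr K => Real.log (max (fv v α) 1) + 0) := by
    rw [Sm_add (Fs_ht α) (by simp), Sm_const, ht_eq_Sa]
    rfl
  rw [e1, logHeight_eq]
  unfold Sa
  refine Sm_mono (Fs_ht (4 * α + 3)) (supp_add (Fs_ht α) (by simp)) ?_ ?_
  · intro w
    have h4 : w.1 (4 : K) = 4 := inf_nat w 4
    have h3 : w.1 (3 : K) = 3 := inf_nat w 3
    have hm1 : 0 < max (w.1 α) 1 := lt_max_of_lt_right one_pos
    rw [← Real.log_mul hm1.ne' (by norm_num)]
    apply Real.log_le_log (lt_max_of_lt_right one_pos)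
    have h5 : w.1 (4 * α + 3) ≤ 4 * w.1 α + 3 := by
      refine (w.1.add_le _ _).trans ?_
      rw [map_mul, h4, h3]
    have h6 := le_max_left (w.1 α) 1
    have h7 := le_max_right (w.1 α) 1
    refine max_le ?_ ?_ <;> linarith
  · intro v
    rw [add_zero]
    apply Real.log_le_log (lt_max_of_lt_right one_pos)
    have hna : Na (fv v) := fv_Na v
    refine max_le ?_ (le_max_right _ _)
    refine hna.le_add ?_ ?_
    · rw [map_mul]
      have h4 := hna.ofNat 4
      have := (fv v).nonneg α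
      exact (mul_le_of_le_one_left this h4).trans (le_max_left _ _)
    · exact (hna.ofNat 3).trans (le_max_right _ _)

end TWOaux

theorem two_sound : S_TWO := by
  classical
  intro hP K _ _ α hg
  have hfin := Fs_sp (jt α)
  set s := hfin.toFinset.filter fun v => Sp (jt α) v with hs
  have hmem : ∀ v, Sp (jt α) v → v ∈ s := by
    intro v hv
    rw [hs, Finset.mem_filter, Set.Finite.mem_toFinset, Function.mem_support, if_pos hv]
    exact ⟨(log_Nv_pos v).ne', hv⟩
  have hs' : ∀ v ∈ s, Sp (jt α) v := fun v hv => (Finset.mem_filter.1 hv).2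
  rw [sp_eq (jt α) s hmem]
  have h1 : ∑ v ∈ s, (if Sp (jt α) v then Real.log (Nv v) else 0) =
      ∑ v ∈ s, Real.log (Ideal.absNorm v.asIdeal) := by
    refine Finset.sum_congr rfl fun v hv => ?_
    rw [if_pos (hs' v hv)]
    rfl
  have h4α : 4 * α + 3 ≠ 0 := fun h => hg (by rw [h]; ring)
  rw [h1]
  refine (hP K (4 * α + 3)⁻¹ s fun v hv => ?_).trans ?_
  · have h2 := TWOaux.loc α hg v (hs' v hv)
    have h3 : FinitePlace.mk v (4 * α + 3)⁻¹ = fv v ((4 * α + 3)⁻¹) := rfl
    rw [h3, map_inv₀]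
    exact (one_lt_inv₀ ((fv v).pos h4α)).2 h2
  · rw [Height.logHeight₁_inv]
    exact TWOaux.height α

end Pool.Agent.H16.LP
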