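import Pool.Agent.H16.LP.Asm2
import Pool.Agent.H16.LP.All
import Pool.Agent.H16.LP.TWO
import Pool.Agent.H16.LP.PHK

/-!
# PROJECT LP (helper16): the second theorem without hypotheses
-/

set_option autoImplicit false

namespace Pool.Agent.H16.LP

open Polynomial NumberField IsDedekindDomain

theorem few_exc2 (d : ℕ) (η ε : ℝ) (hη0 : 0 ≤ η)
    (hη : η < 1 / 2) (hε : 0 < ε) (E : ℕ → Set (Fin (d + 1) → ℤ))
    (hE : ∀ H a, a ∈ E H → (∀ i, |a i| ≤ H) ∧ (∀ p : ℕ, p.Prime → ∃ i, ¬ (p : ℤ) ∣ a i) ∧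
      ∃ (K : Type) (_ : Field K) (_ : NumberField K) (j : K), Rt K d a j ∧ j ≠ 0 ∧ j ≠ 1728 ∧
        ¬ Pool.Agent.Y733.LS.LSP ((1 - 2 * η) / 100) j) :
    ∃ C : ℝ, 0 < C ∧ ∀ H : ℕ, 1 ≤ H → (E H).Finite ∧
      ((E H).ncard : ℝ) ≤ C * (H : ℝ) ^ (d + 1 - η / 2 + ε) :=
  few2 min_sound emb_sound div_sound sub_sound nrm_sound fin_sound arc_sound pol_sound pht_sound
    psum_sound pm_sound rad_sound cnt_sound two_sound phk_sound d η ε hη0 hη hε E hE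

end Pool.Agent.H16.LP
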