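import Pool.Agent.H16.LP.Stm3

set_option autoImplicit false

/-! LP-CNT3 (helper10): the number of the coefficient vectors of monic polynomials. -/

namespace Pool.Agent.H16.LP

theorem cnt3_sound : S_CNT3 := by
  classical
  intro hSF d m ρ ε c hd hm hρ hε hc
  obtain ⟨k, rfl⟩ : ∃ k, d = k + 1 := ⟨d - 1, by omega⟩
  obtain ⟨C, hC, hSF⟩ := hSF m ε hm hε
  refine ⟨3 ^ k * (2 * (C * c ^ (1 / 2 : ℝ))), by positivity, fun H hH => ?_⟩
  have hH0 : (1 : ℝ) ≤ (H : ℝ) := by exact_mod_cast hH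
  have hHpos : (0 : ℝ) < (H : ℝ) := by linarith
  have hc0 : (0 : ℝ) ≤ c := by linarith
  set R : ℝ := c * (H : ℝ) ^ ρ with hR
  have hR1 : 1 ≤ R := by
    have := Real.one_le_rpow hH0 hρ
    nlinarith
  have h1 := hSF H R hH hR1
  set F := (Finset.Icc 1 H).filter (fun n => (sf m n : ℝ) ≤ R) with hF
  set T : Finset ℤ := (F.image (fun n : ℕ => (n : ℤ))) ∪ (F.image (fun n : ℕ => -(n : ℤ))) with hT
  have hTc : T.card ≤ 2 * F.card := by
    refine (Finset.card_union_le _ _).trans ?_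
    have h2 := Finset.card_image_le (s := F) (f := fun n : ℕ => (n : ℤ))
    have h3 := Finset.card_image_le (s := F) (f := fun n : ℕ => -(n : ℤ))
    omega
  set B : Finset (Fin (k + 1 + 1) → ℤ) :=
    Fintype.piFinset (fun i => if i = Fin.last (k + 1) then {1} else
      if i = 0 then T else Finset.Icc (-(H : ℤ)) H) with hB
  set S : Set (Fin (k + 1 + 1) → ℤ) := {a | (∀ i, |a i| ≤ H) ∧ a (Fin.last (k + 1)) = 1 ∧ a 0 ≠ 0 ∧
      (sf m (a 0).natAbs : ℝ) ≤ R} with hS
  have hsub : S ⊆ (B : Set (Fin (k + 1 + 1) → ℤ)) := by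
    rintro a ⟨ha1, ha0, ha2, ha3⟩
    rw [Finset.mem_coe, hB, Fintype.mem_piFinset]
    intro i
    by_cases hi : i = Fin.last (k + 1)
    · rw [if_pos hi, hi, ha0]
      exact Finset.mem_singleton_self _
    · rw [if_neg hi]
      by_cases hi0 : i = 0
      · rw [if_pos hi0, hi0]
        have hn : (a 0).natAbs ∈ F := by
          rw [hF, Finset.mem_filter, Finset.mem_Icc]
          refine ⟨⟨Int.natAbs_pos.2 ha2, ?_⟩, ha3⟩
          have := ha1 0
          rw [Int.abs_eq_natAbs] at this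
          exact_mod_cast this
        rcases Int.natAbs_eq (a 0) with h | h
        · exact Finset.mem_union_left _ (Finset.mem_image.2 ⟨_, hn, h.symm⟩)
        · exact Finset.mem_union_right _ (Finset.mem_image.2 ⟨_, hn, h.symm⟩)
      · rw [if_neg hi0, Finset.mem_Icc]
        exact abs_le.1 (ha1 i)
  have hcard : B.card = T.card * (2 * H + 1) ^ k := by
    rw [hB, Fintype.card_piFinset, Fin.prod_univ_castSucc, if_pos rfl, Fin.prod_univ_succ,
      if_neg (Fin.castSucc_lt_last _).ne, if_pos Fin.castSucc_zero, Finset.card_singleton, mul_one]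
    congr 1
    have h4 : ∀ i : Fin k, (if i.succ.castSucc = Fin.last (k + 1) then ({1} : Finset ℤ) else
        if i.succ.castSucc = 0 then T else Finset.Icc (-(H : ℤ)) H).card = 2 * H + 1 := by
      intro i
      have h0 : i.succ.castSucc ≠ 0 := by
        intro h
        have := congrArg Fin.val h
        simp at this
      rw [if_neg (Fin.castSucc_lt_last _).ne, if_neg h0, Int.card_Icc]
      omega
    rw [Finset.prod_congr rfl (fun i _ => h4 i), Finset.prod_const, Finset.card_univ,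
      Fintype.card_fin]
  have hfin : S.Finite := B.finite_toSet.subset hsub
  refine ⟨hfin, ?_⟩
  have h5 : S.ncard ≤ B.card := by
    have := Set.ncard_le_ncard hsub B.finite_toSet
    rwa [Set.ncard_coe_finset] at this
  have h6 : (B.card : ℝ) ≤ (2 * (C * R ^ (1 / 2 : ℝ) * (H : ℝ) ^ (1 / 2 + ε))) * (3 * H) ^ k := by
    rw [hcard]
    push_cast
    have h7 : (2 * (H : ℝ) + 1) ^ k ≤ (3 * H) ^ k := by gcongr; linarith
    have h8 : (T.card : ℝ) ≤ 2 * (C * R ^ (1 / 2 : ℝ) * (H : ℝ) ^ (1 / 2 + ε)) := by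
      have h9 : (T.card : ℝ) ≤ 2 * (F.card : ℝ) := by exact_mod_cast hTc
      linarith
    exact mul_le_mul h8 h7 (by positivity) (by positivity)
  have h10 : (2 * (C * R ^ (1 / 2 : ℝ) * (H : ℝ) ^ (1 / 2 + ε))) * (3 * (H : ℝ)) ^ k =
      3 ^ k * (2 * (C * c ^ (1 / 2 : ℝ))) *
        (H : ℝ) ^ (((k + 1 : ℕ) : ℝ) - 1 / 2 + ρ / 2 + ε) := by
    have e1 : R ^ (1 / 2 : ℝ) = c ^ (1 / 2 : ℝ) * (H : ℝ) ^ (ρ / 2) := by
      rw [hR, Real.mul_rpow hc0 (Real.rpow_nonneg hHpos.le _), ← Real.rpow_mul hHpos.le]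
      congr 2
      ring
    have e2 : ((k + 1 : ℕ) : ℝ) - 1 / 2 + ρ / 2 + ε = (k : ℝ) + ρ / 2 + (1 / 2 + ε) := by
      push_cast
      ring
    rw [e1, e2, Real.rpow_add hHpos ((k : ℝ) + ρ / 2), Real.rpow_add hHpos (k : ℝ),
      Real.rpow_natCast, mul_pow]
    ring
  rw [← h10]
  have h11 : (S.ncard : ℝ) ≤ (B.card : ℝ) := by exact_mod_cast h5
  exact h11.trans h6

end Pool.Agent.H16.LP
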