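import Pool.Agent.H16.LP.Stm3

/-! # LP-SF (helper63): few integers have a small squarefree part -/

set_option autoImplicit false

namespace Pool.Agent.H16.LP

namespace SFaux

lemma decomp (m n : ℕ) (hn : 0 < n) :
    ∃ g b a : ℕ, g ∣ m ∧ n = sf m n * g * b ^ 3 * a ^ 2 := by
  obtain ⟨q, a, h1, h2⟩ := Nat.sq_mul_squarefree n
  have hs : sf m n ∣ q := by
    unfold sf
    apply Finset.prod_primes_dvd
    · intro p hp
      rw [Finset.mem_filter] at hp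
      exact (Nat.prime_of_mem_primeFactors hp.1).prime
    · intro p hp
      rw [Finset.mem_filter] at hp
      obtain ⟨hp1, hp2, hp3⟩ := hp
      have hpp := Nat.prime_of_mem_primeFactors hp1
      have hpn := Nat.dvd_of_mem_primeFactors hp1
      rw [← h1] at hpn
      rcases (hpp.dvd_mul).1 hpn with h | h
      · exfalso
        apply hp3
        have h3 := hpp.dvd_of_dvd_pow h
        rw [← h1]
        exact Dvd.dvd.mul_right (pow_dvd_pow_of_dvd h3 2) _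
      · exact h
  obtain ⟨q', hq'⟩ := hs
  obtain ⟨b, hb⟩ := Nat.gcd_dvd_left q' m
  have hq0 : q ≠ 0 := h2.ne_zero
  have hbsq : Squarefree b := by
    refine h2.squarefree_of_dvd ?_
    rw [hq']
    refine Dvd.dvd.mul_left ?_ _
    exact Dvd.intro_left _ hb.symm
  have hba : b ∣ a := by
    rw [← Nat.prod_primeFactors_of_squarefree hbsq]
    apply Finset.prod_primes_dvd
    · intro p hp
      exact (Nat.prime_of_mem_primeFactors hp).prime
    · intro p hp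
      have hpp := Nat.prime_of_mem_primeFactors hp
      have hpb := Nat.dvd_of_mem_primeFactors hp
      have hpq' : p ∣ q' := by rw [hb]; exact Dvd.dvd.mul_left hpb _
      have hpq : p ∣ q := by rw [hq']; exact Dvd.dvd.mul_left hpq' _
      have hpn : p ∣ n := by rw [← h1]; exact Dvd.dvd.mul_left hpq _
      have nsq : ∀ x y : ℕ, x * y ∣ q → p ∣ x → ¬ p ∣ y := by
        intro x y hxy hx hy
        have h3 : p * p ∣ q := (mul_dvd_mul hx hy).trans hxy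
        exact hpp.not_isUnit (h2 p h3)
      have hpm : ¬ p ∣ m := by
        intro h
        refine nsq (Nat.gcd q' m) b ?_ (Nat.dvd_gcd hpq' h) hpb
        rw [← hb, hq']
        exact Dvd.intro_left _ rfl
      have hps : ¬ p ∣ sf m n := by
        intro h
        exact nsq (sf m n) q' (by rw [hq']) h hpq'
      have hp2 : p ^ 2 ∣ n := by
        by_contra hcon
        apply hps
        unfold sf
        apply Finset.dvd_prod_of_mem (fun p => p)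
        rw [Finset.mem_filter]
        exact ⟨Nat.mem_primeFactors.2 ⟨hpp, hpn, hn.ne'⟩, hpm, hcon⟩
      by_contra hcon
      have hc : Nat.Coprime (p ^ 2) (a ^ 2) := by
        refine Nat.Coprime.pow 2 2 ?_
        rwa [hpp.coprime_iff_not_dvd]
      rw [← h1] at hp2
      have h4 := hc.dvd_of_dvd_mul_left hp2
      rw [sq] at h4
      exact hpp.not_isUnit (h2 p h4)
  obtain ⟨a', ha'⟩ := hba
  refine ⟨Nat.gcd q' m, b, a', Nat.gcd_dvd_right _ _, ?_⟩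
  calc n = a ^ 2 * q := h1.symm
    _ = (b * a') ^ 2 * (sf m n * (Nat.gcd q' m * b)) := by rw [← hb, ← hq', ← ha']
    _ = _ := by ring

lemma sum_inv_sqrt (S : ℕ) : ∑ s ∈ Finset.Icc 1 S, (Real.sqrt s)⁻¹ ≤ 2 * Real.sqrt S := by
  induction S with
  | zero => simp
  | succ S ih =>
    rw [Finset.sum_Icc_succ_top (by omega)]
    have h1 : 0 < Real.sqrt ((S + 1 : ℕ) : ℝ) := Real.sqrt_pos.2 (by positivity)
    have h2 : 0 ≤ Real.sqrt (S : ℝ) := Real.sqrt_nonneg _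
    have h3 : Real.sqrt ((S + 1 : ℕ) : ℝ) ^ 2 = S + 1 := by
      rw [Real.sq_sqrt (by positivity)]; push_cast; ring
    have h4 : Real.sqrt (S : ℝ) ^ 2 = S := Real.sq_sqrt (by positivity)
    have h5 : (Real.sqrt ((S + 1 : ℕ) : ℝ))⁻¹ ≤
        2 * Real.sqrt ((S + 1 : ℕ) : ℝ) - 2 * Real.sqrt (S : ℝ) := by
      rw [inv_le_iff_one_le_mul₀ h1]
      nlinarith [sq_nonneg (Real.sqrt ((S + 1 : ℕ) : ℝ) - Real.sqrt (S : ℝ))]
    linarith

end SFaux

open SFaux in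
theorem sf_sound : S_SF := by
  classical
  intro m ε hm hε
  have hZs : Summable (fun b : ℕ => ((b : ℝ) ^ (3 / 2 : ℝ))⁻¹) :=
    Real.summable_nat_rpow_inv.2 (by norm_num)
  obtain ⟨Z, hZ⟩ : ∃ Z : ℝ, Z = ∑' b : ℕ, ((b : ℝ) ^ (3 / 2 : ℝ))⁻¹ := ⟨_, rfl⟩
  have hZ0 : 0 ≤ Z := by rw [hZ]; exact tsum_nonneg fun b => by positivity
  have hZb : ∀ N : ℕ, ∑ b ∈ Finset.Icc 1 N, ((b : ℝ) ^ (3 / 2 : ℝ))⁻¹ ≤ Z := by
    intro N
    rw [hZ]
    exact hZs.sum_le_tsum _ (fun b _ => by positivity)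
  refine ⟨2 * m.divisors.card * Z + 1, by positivity, ?_⟩
  intro N R hN hR
  have hN0 : (1 : ℝ) ≤ N := by exact_mod_cast hN
  -- the parameters
  obtain ⟨J, hJ⟩ : ∃ J : Finset (ℕ × ℕ × ℕ),
    J = Finset.Icc 1 ⌊R⌋₊ ×ˢ (m.divisors ×ˢ Finset.Icc 1 N) := ⟨_, rfl⟩
  have hsub : (Finset.Icc 1 N).filter (fun n => (sf m n : ℝ) ≤ R) ⊆
      J.biUnion (fun x => (Finset.Icc 1 ⌊Real.sqrt ((N : ℝ) / (x.1 * x.2.2 ^ 3))⌋₊).image
        (fun a => x.1 * x.2.1 * x.2.2 ^ 3 * a ^ 2)) := by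
    intro n hn
    rw [Finset.mem_filter, Finset.mem_Icc] at hn
    obtain ⟨⟨hn1, hn2⟩, hn3⟩ := hn
    obtain ⟨g, b, a, hg, hdec⟩ := decomp m n (by omega)
    have hpos : sf m n * g * b ^ 3 * a ^ 2 ≠ 0 := by rw [← hdec]; omega
    have hs0 : 0 < sf m n := Nat.pos_of_ne_zero (by rintro h; apply hpos; rw [h]; ring)
    have hg0 : 0 < g := Nat.pos_of_ne_zero (by rintro h; apply hpos; rw [h]; ring)
    have hb0 : 0 < b := Nat.pos_of_ne_zero (by rintro h; apply hpos; rw [h]; ring)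
    have ha0 : 0 < a := Nat.pos_of_ne_zero (by rintro h; apply hpos; rw [h]; ring)
    rw [Finset.mem_biUnion]
    refine ⟨(sf m n, g, b), ?_, ?_⟩
    · rw [hJ, Finset.mem_product, Finset.mem_product, Finset.mem_Icc, Finset.mem_Icc,
        Nat.mem_divisors]
      refine ⟨⟨hs0, Nat.le_floor hn3⟩, ⟨hg, hm.ne'⟩, hb0, ?_⟩
      calc b ≤ b ^ 3 := Nat.le_self_pow (by norm_num) b
        _ ≤ sf m n * g * b ^ 3 * a ^ 2 := by
            have h5 : 1 ≤ sf m n * g * a ^ 2 := Nat.succ_le_of_lt (by positivity)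
            calc b ^ 3 = 1 * b ^ 3 := (one_mul _).symm
              _ ≤ (sf m n * g * a ^ 2) * b ^ 3 := Nat.mul_le_mul_right _ h5
              _ = _ := by ring
        _ = n := hdec.symm
        _ ≤ N := hn2
    · rw [Finset.mem_image]
      refine ⟨a, ?_, hdec.symm⟩
      rw [Finset.mem_Icc]
      refine ⟨ha0, Nat.le_floor ?_⟩
      apply Real.le_sqrt_of_sq_le
      have hsr : (0 : ℝ) < (sf m n : ℝ) * b ^ 3 := by positivity
      rw [le_div_iff₀ hsr]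
      have h6 : a ^ 2 * (sf m n * b ^ 3) ≤ N := by
        calc a ^ 2 * (sf m n * b ^ 3) = 1 * (a ^ 2 * (sf m n * b ^ 3)) := (one_mul _).symm
          _ ≤ g * (a ^ 2 * (sf m n * b ^ 3)) := Nat.mul_le_mul_right _ hg0
          _ = sf m n * g * b ^ 3 * a ^ 2 := by ring
          _ = n := hdec.symm
          _ ≤ N := hn2
      exact_mod_cast h6
  have hcard : (((Finset.Icc 1 N).filter (fun n => (sf m n : ℝ) ≤ R)).card : ℝ) ≤
      ∑ x ∈ J, Real.sqrt N * ((Real.sqrt x.1)⁻¹ * (((x.2.2 : ℕ) : ℝ) ^ (3 / 2 : ℝ))⁻¹) := by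
    have h1 := (Finset.card_le_card hsub).trans Finset.card_biUnion_le
    have h2 : (((Finset.Icc 1 N).filter (fun n => (sf m n : ℝ) ≤ R)).card : ℝ) ≤
        ((∑ x ∈ J, ((Finset.Icc 1 ⌊Real.sqrt ((N : ℝ) / (x.1 * x.2.2 ^ 3))⌋₊).image
          (fun a => x.1 * x.2.1 * x.2.2 ^ 3 * a ^ 2)).card : ℕ) : ℝ) := by exact_mod_cast h1
    refine h2.trans ?_
    rw [Nat.cast_sum]
    refine Finset.sum_le_sum fun x _ => ?_
    have h3 : (((Finset.Icc 1 ⌊Real.sqrt ((N : ℝ) / (x.1 * x.2.2 ^ 3))⌋₊).image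
        (fun a => x.1 * x.2.1 * x.2.2 ^ 3 * a ^ 2)).card : ℝ) ≤
        (⌊Real.sqrt ((N : ℝ) / (x.1 * x.2.2 ^ 3))⌋₊ : ℝ) := by
      have h4 := Finset.card_image_le (s := Finset.Icc 1 ⌊Real.sqrt ((N : ℝ) / (x.1 * x.2.2 ^ 3))⌋₊)
        (f := fun a => x.1 * x.2.1 * x.2.2 ^ 3 * a ^ 2)
      rw [Nat.card_Icc, Nat.add_sub_cancel] at h4
      exact_mod_cast h4
    refine h3.trans ((Nat.floor_le (Real.sqrt_nonneg _)).trans (le_of_eq ?_))
    have h5 : (((x.2.2 : ℕ) : ℝ) ^ (3 / 2 : ℝ)) = Real.sqrt (((x.2.2 : ℕ) : ℝ) ^ 3) := by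
      rw [Real.sqrt_eq_rpow, ← Real.rpow_natCast, ← Real.rpow_mul (by positivity)]
      norm_num
    rw [h5, Real.sqrt_div (by positivity), Real.sqrt_mul (by positivity), div_eq_mul_inv, mul_inv]
  have hsumeq : ∑ x ∈ J, Real.sqrt N * ((Real.sqrt x.1)⁻¹ * (((x.2.2 : ℕ) : ℝ) ^ (3 / 2 : ℝ))⁻¹) =
      Real.sqrt N * ((∑ s ∈ Finset.Icc 1 ⌊R⌋₊, (Real.sqrt s)⁻¹) *
        (m.divisors.card * ∑ b ∈ Finset.Icc 1 N, ((b : ℝ) ^ (3 / 2 : ℝ))⁻¹)) := by
    rw [hJ, ← Finset.mul_sum, Finset.sum_product, Finset.sum_mul]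
    congr 1
    refine Finset.sum_congr rfl fun s _ => ?_
    rw [Finset.sum_product]
    simp only
    rw [Finset.sum_const, nsmul_eq_mul, ← Finset.mul_sum]
    ring
  refine hcard.trans ?_
  rw [hsumeq]
  have hsq : ∑ s ∈ Finset.Icc 1 ⌊R⌋₊, (Real.sqrt s)⁻¹ ≤ 2 * Real.sqrt R := by
    refine (sum_inv_sqrt _).trans ?_
    have := Real.sqrt_le_sqrt (Nat.floor_le (show 0 ≤ R by linarith))
    linarith
  have hNε : Real.sqrt N ≤ (N : ℝ) ^ (1 / 2 + ε) := by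
    rw [Real.sqrt_eq_rpow]
    exact Real.rpow_le_rpow_of_exponent_le hN0 (by linarith)
  have hb0 : 0 ≤ ∑ b ∈ Finset.Icc 1 N, ((b : ℝ) ^ (3 / 2 : ℝ))⁻¹ :=
    Finset.sum_nonneg fun b _ => by positivity
  calc Real.sqrt N * ((∑ s ∈ Finset.Icc 1 ⌊R⌋₊, (Real.sqrt s)⁻¹) *
        (m.divisors.card * ∑ b ∈ Finset.Icc 1 N, ((b : ℝ) ^ (3 / 2 : ℝ))⁻¹)) ≤
      (N : ℝ) ^ (1 / 2 + ε) * ((2 * Real.sqrt R) * (m.divisors.card * Z)) := by
        gcongr
        exact hZb N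
    _ = (2 * m.divisors.card * Z) * R ^ (1 / 2 : ℝ) * (N : ℝ) ^ (1 / 2 + ε) := by
        rw [← Real.sqrt_eq_rpow]; ring
    _ ≤ (2 * m.divisors.card * Z + 1) * R ^ (1 / 2 : ℝ) * (N : ℝ) ^ (1 / 2 + ε) := by
        gcongr
        linarith

end Pool.Agent.H16.LP
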