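import Pool.Agent.H16.LP.Asm3
import Pool.Agent.H16.LP.All
import Pool.Agent.H16.LP.ADD
import Pool.Agent.H16.LP.SF
import Pool.Agent.H16.LP.CNT3

/-!
# PROJECT LP (helper16): the third theorem without hypotheses
-/

set_option autoImplicit false

namespace Pool.Agent.H16.LP

open Polynomial NumberField IsDedekindDomain

theorem few_exc3 (d m : ℕ) (θ κ ε : ℝ) (hm : 0 < m) (hm3 : ¬ 3 ∣ m) (hθ : 0 < θ) (hθ1 : θ ≤ 1)
    (hκ : 0 ≤ κ) (hε : 0 < ε) (E : ℕ → Set (Fin (d + 1) → ℤ))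
    (hE : ∀ H a, a ∈ E H → (∀ i, |a i| ≤ H) ∧ a (Fin.last d) = 1 ∧
      ∃ (K : Type) (_ : Field K) (_ : NumberField K) (j : K), Rt K d a j ∧ j ≠ 0 ∧ j ≠ 1728 ∧
        ¬ Pool.Agent.H16.LA.UM m κ ((θ / m) ^ 6 / 290000) (28 * m ^ 2 / θ ^ 2) j) :
    ∃ C : ℝ, 0 < C ∧ ∀ H : ℕ, 1 ≤ H → (E H).Finite ∧
      ((E H).ncard : ℝ) ≤ C * (H : ℝ) ^ (d - 1 / 2 + (θ + κ) / 2 + ε) :=
  few3 min_sound emb_sound div_sound sub_sound nrm_sound fin_sound arc_sound pht_sound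
    psum_sound pm_sound add_sound sf_sound cnt3_sound d m θ κ ε hm hm3 hθ hθ1 hκ hε E hE

end Pool.Agent.H16.LP
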