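import Pool.Agent.H16.LP.Stm
import Pool.Agent.H16.LA.MTot

/-!
# PROJECT LP (helper16): assembly
-/

set_option autoImplicit false
set_option linter.unusedSectionVars false

namespace Pool.Agent.H16.LP

open Polynomial NumberField IsDedekindDomain Finset
open Pool.Agent.H691R3 Pool.Agent.W223.AK
open Pool.Agent.TH942 Pool.Agent.TH910.LS Pool.Agent.Y733.LS Pool.Agent.Y733.UD
open Pool.Agent.Q237.LS Pool.Agent.Q237.LT Pool.Agent.H16.LA

/-- the height of `j` -/
theorem height_le (min : S_MIN) (emb : S_EMB) (div : S_DIV) (sub : S_SUB) (nrm : S_NRM)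
    (fin : S_FIN) (arc : S_ARC) {K : Type} [Field K] [NumberField K] {d : ℕ}
    {a : Fin (d + 1) → ℤ} {j : K} {H : ℝ} (h : Rt K d a j) (ha : a ≠ 0)
    (hH : ∀ i, |(a i : ℝ)| ≤ H) : Height.mulHeight₁ j ≤ (d + 1) * H := by
  rw [NumberField.mulHeight₁_eq]
  have h1 := arc min emb K d a j H h ha hH
  have h2 := fin K (a (Fin.last d)) j (min K d a j h ha).1
    (nrm min emb (fun ι _ s t α c hst hi => sub div ℂ ι s t α c hst hi) K d a j h ha)
  have h3 : 0 ≤ ∏ v : InfinitePlace K, max (v j) 1 ^ v.mult :=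
    prod_nonneg fun v _ => pow_nonneg (le_trans zero_le_one (le_max_right _ _)) _
  calc (∏ v : InfinitePlace K, max (v j) 1 ^ v.mult) * ∏ᶠ v : FinitePlace K, max (v j) 1
      ≤ (∏ v : InfinitePlace K, max (v j) 1 ^ v.mult) * |((a (Fin.last d) : ℤ) : ℝ)| :=
        mul_le_mul_of_nonneg_left h2 h3
    _ = |((a (Fin.last d) : ℤ) : ℝ)| * ∏ v : InfinitePlace K, max (v j) 1 ^ v.mult := mul_comm _ _
    _ ≤ _ := h1

/-- the poles of `j` -/
theorem poles_ge (min : S_MIN) (pol : S_POL) (psum : S_PSUM) (pm : S_PM) {K : Type} [Field K]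
    [NumberField K] {d : ℕ} {a : Fin (d + 1) → ℤ} {j : K} (h : Rt K d a j)
    (hp : ∀ p : ℕ, p.Prime → ∃ i, ¬ (p : ℤ) ∣ a i) (m : ℕ) :
    Real.log (rad m (a (Fin.last d)).natAbs) ≤ ∑ v ∈ am m j, Real.log (Nv v) := by
  have h1 : Real.log (rad m (a (Fin.last d)).natAbs) =
      ∑ p ∈ (a (Fin.last d)).natAbs.primeFactors.filter (fun p => ¬ p ∣ m), Real.log p := by
    unfold rad
    rw [Nat.cast_prod, Real.log_prod]
    intro p hp
    have := (Nat.prime_of_mem_primeFactors (mem_filter.1 hp).1).pos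
    positivity
  rw [h1]
  refine psum K (am m j) _ ?_
  intro p hpf
  rw [mem_filter] at hpf
  have hpp := Nat.prime_of_mem_primeFactors hpf.1
  obtain ⟨v, h2, h3⟩ := pol min K d a j p h hpp
    (Int.natCast_dvd.2 (Nat.dvd_of_mem_primeFactors hpf.1)) (hp p hpp)
  exact ⟨hpp, v, mem_am.2 ⟨h3, pm K v p m hpp h2 hpf.2⟩, h2⟩

/-- the exceptional polynomials are few -/
theorem few (min : S_MIN) (emb : S_EMB) (div : S_DIV) (sub : S_SUB) (nrm : S_NRM)
    (fin : S_FIN) (arc : S_ARC) (pol : S_POL) (pht : S_PHT) (psum : S_PSUM) (pm : S_PM)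
    (rd : S_RAD) (cnt : S_CNT) (d m : ℕ) (θ κ ε : ℝ) (hm : 0 < m) (hθ : 0 < θ) (hθ1 : θ ≤ 1)
    (hκ : 0 ≤ κ) (hε : 0 < ε) (E : ℕ → Set (Fin (d + 1) → ℤ))
    (hE : ∀ H a, a ∈ E H → (∀ i, |a i| ≤ H) ∧ (∀ p : ℕ, p.Prime → ∃ i, ¬ (p : ℤ) ∣ a i) ∧
      ∃ (K : Type) (_ : Field K) (_ : NumberField K) (j : K), Rt K d a j ∧ j ≠ 0 ∧ j ≠ 1728 ∧
        ¬ UM m κ ((θ / m) ^ 6 / 290000) (28 * m ^ 2 / θ ^ 2) j) :
    ∃ C : ℝ, 0 < C ∧ ∀ H : ℕ, 1 ≤ H → (E H).Finite ∧
      ((E H).ncard : ℝ) ≤ C * (H : ℝ) ^ (d + θ + κ + ε) := by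
  set L0 : ℝ := 144 * c8 * m ^ 2 / θ ^ 2 with hL0
  have hL00 : 0 ≤ L0 := by
    have := c8_pos
    positivity
  have hd1 : (1 : ℝ) ≤ (d : ℝ) + 1 := by
    have : (0 : ℝ) ≤ d := Nat.cast_nonneg d
    linarith
  have hρ : 0 ≤ θ + κ := by linarith
  have hdρ : (1 : ℝ) ≤ ((d : ℝ) + 1) ^ (θ + κ) := Real.one_le_rpow hd1 hρ
  have hexp : (1 : ℝ) ≤ Real.exp (d * L0) := Real.one_le_exp (by positivity)
  set c : ℝ := Real.exp (d * L0) * ((d : ℝ) + 1) ^ (θ + κ) with hc
  have hc1 : 1 ≤ c := one_le_mul_of_one_le_of_one_le hexp hdρ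
  obtain ⟨C, hC, hcnt⟩ := cnt rd d m (θ + κ) ε c hm hρ hε hc1
  refine ⟨C, hC, fun H hH => ?_⟩
  obtain ⟨h1, h2⟩ := hcnt H hH
  have hH1 : (1 : ℝ) ≤ H := by exact_mod_cast hH
  have hsub : E H ⊆ {a : Fin (d + 1) → ℤ | (∀ i, |a i| ≤ H) ∧ a (Fin.last d) ≠ 0 ∧
      (rad m (a (Fin.last d)).natAbs : ℝ) ≤ c * (H : ℝ) ^ (θ + κ)} := by
    intro a haE
    obtain ⟨hb, hp, K, _, _, j, hR, h0, h1728, hbad⟩ := hE H a haE
    have ha : a ≠ 0 := by
      rintro rfl
      obtain ⟨i, hi⟩ := hp 2 Nat.prime_two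
      exact hi (dvd_zero _)
    have hlast := (min K d a j hR ha).1
    refine ⟨hb, hlast, ?_⟩
    by_contra hgt
    push Not at hgt
    apply hbad
    have hpol := poles_ge min pol psum pm hR hp m
    have hbR : ∀ i, |(a i : ℝ)| ≤ H := by
      intro i
      exact_mod_cast hb i
    have hht := height_le min emb div sub nrm fin arc hR ha hbR
    have hpht := pht K j (am m j) (fun v hv => (mem_am.1 hv).1)
    have hHρ : (1 : ℝ) ≤ (H : ℝ) ^ (θ + κ) := Real.one_le_rpow hH1 hρ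
    have hcpos : 0 < c := by linarith
    have hlog : Real.log c + (θ + κ) * Real.log H < Real.log (rad m (a (Fin.last d)).natAbs) := by
      have h3 := Real.log_lt_log (by positivity) hgt
      rw [Real.log_mul (by positivity) (by positivity), Real.log_rpow (by linarith)] at h3
      exact h3
    have hlc : Real.log c = d * L0 + (θ + κ) * Real.log ((d : ℝ) + 1) := by
      rw [hc, Real.log_mul (by positivity) (by positivity), Real.log_exp,
        Real.log_rpow (by linarith)]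
    have hlH : 0 ≤ Real.log H := Real.log_nonneg hH1
    have hld : 0 ≤ Real.log ((d : ℝ) + 1) := Real.log_nonneg hd1
    have hh : ht j ≤ Real.log ((d : ℝ) + 1) + Real.log H := by
      rw [← Pool.Agent.Q237.LS.ht_log]
      unfold Height.logHeight₁
      rw [← Real.log_mul (by positivity) (by positivity)]
      exact Real.log_le_log (by
        have := Height.one_le_mulHeight₁ j
        linarith) hht
    have hsumeq : ∑ v ∈ am m j, Real.log (Ideal.absNorm v.asIdeal) =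
      ∑ v ∈ am m j, Real.log (Nv v) := rfl
    rw [hsumeq, Pool.Agent.Q237.LS.ht_log] at hpht
    have hdL : 0 ≤ d * L0 := by positivity
    have e1 : (θ + κ) * ht j ≤ (θ + κ) * (Real.log ((d : ℝ) + 1) + Real.log H) :=
      mul_le_mul_of_nonneg_left hh hρ
    have e2 : 0 ≤ (θ + κ) * Real.log H := mul_nonneg hρ hlH
    have e3 : 0 ≤ (θ + κ) * Real.log ((d : ℝ) + 1) := mul_nonneg hρ hld
    refine UM_of h0 h1728 hm hθ hθ1 ?_ ?_
    · unfold fm
      have hum : 0 ≤ ∑ v ∈ um m j, Real.log (Nv v) := by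
        refine sum_nonneg fun v _ => Real.log_nonneg ?_
        have : 0 < Ideal.absNorm v.asIdeal := by
          rw [Nat.pos_iff_ne_zero]
          exact fun h => v.ne_bot (Ideal.absNorm_eq_zero_iff.1 h)
        have h4 : (1 : ℝ) ≤ (Ideal.absNorm v.asIdeal : ℝ) := by exact_mod_cast this
        exact h4
      nlinarith
    · rw [hR.deg]
      linarith
  refine ⟨h1.subset hsub, ?_⟩
  refine le_trans (by exact_mod_cast Set.ncard_le_ncard hsub h1) (h2.trans (le_of_eq ?_))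
  congr 2
  ring

end Pool.Agent.H16.LP
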