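import Pool.Agent.H16.LP.Stm
import Pool.Agent.H16.LA.S8.Y733.LS.Fin

/-!
# PROJECT LP (helper16), second part: curves over `ℚ(j)` without torsion
-/

set_option autoImplicit false

namespace Pool.Agent.H16.LP

open NumberField IsDedekindDomain Finset Pool.Agent.H691R3 Pool.Agent.W223.AK
  Pool.Agent.Y733.LS Pool.Agent.Y733.UD

/-- TWO (80 lines).  The simple poles of `jt α = 6912 α³ / ((α + 3)² (4 α + 3))` which do not divide
`6` contribute at most the height of `α`.

Proof.  At a simple pole `v ∤ 6` (`Sp`: `|j|_v = N v`) we have `|4 α + 3|_v < 1`: if `|α|_v > 1` then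
`|j|_v = 1`; if `|α|_v ≤ 1` and `|4 α + 3|_v = 1` then `|j|_v = |α|³ / |α + 3|²`, so `|α + 3|_v < 1`,
`|α|_v = |3|_v = 1` and `|j|_v = |α + 3|_v ^ (-2)` is an even power of `N v`.  So the simple poles
are poles of `β = (4 α + 3)⁻¹`, and by `S_PHT` their contribution is at most
`logHeight₁ β = logHeight₁ (4 α + 3)` (`Height.logHeight₁_inv`), and this is at most
`logHeight₁ α + n log 7` (`NumberField.logHeight₁_eq`, termwise).  `sp_eq` expresses `sp` as a finite
sum; `Pool.Agent.Q237.LS.ht_log` or `logHeight_eq`, `ht_eq_Sa` relate `ht` and `logHeight₁`. -/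
def S_TWO : Prop :=
  S_PHT → ∀ (K : Type) [Field K] [NumberField K] (α : K), (α + 3) ^ 2 * (4 * α + 3) ≠ 0 →
    sp (jt α) ≤ ht α + Module.finrank ℚ K * Real.log 7

open Classical in
/-- PHK (60 lines).  Like `S_PHT`, where the poles which are not simple count twice: at these
`|j|_v` is at least `(N v) ^ 2`. -/
def S_PHK : Prop :=
  ∀ (K : Type) [Field K] [NumberField K] (j : K) (A : Finset (HeightOneSpectrum (𝓞 K))),
    (∀ v ∈ A, 1 < FinitePlace.mk v j) →
    ∑ v ∈ A, Real.log (Ideal.absNorm v.asIdeal) +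
      ∑ v ∈ A.filter (fun v => FinitePlace.mk v j ≠ (Ideal.absNorm v.asIdeal : ℝ)),
        Real.log (Ideal.absNorm v.asIdeal) ≤ Height.logHeight₁ j

end Pool.Agent.H16.LP
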