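import Pool.Agent.H16.LP.Asm
import Pool.Agent.H16.LP.Stm2

/-!
# PROJECT LP (helper16): assembly, second part
-/

set_option autoImplicit false
set_option linter.unusedSectionVars false

namespace Pool.Agent.H16.LP

open Polynomial NumberField IsDedekindDomain Finset
open Pool.Agent.H691R3 Pool.Agent.W223.AK
open Pool.Agent.TH942 Pool.Agent.TH910.LS Pool.Agent.Y733.LS Pool.Agent.Y733.UD
open Pool.Agent.Q237.LS Pool.Agent.Q237.LT Pool.Agent.H16.LA

theorem six {K : Type} [Field K] [NumberField K] {v : Pr K} (h : fv v ((6 : ℕ) : K) = 1) :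
    fv v 2 = 1 ∧ fv v 3 = 1 := by
  have hnat : ∀ n : ℕ, fv v ((n : ℕ) : K) ≤ 1 := by
    intro n
    have h := fv_int_le v ((n : ℕ) : 𝓞 K)
    have e : (((n : ℕ) : 𝓞 K) : K) = ((n : ℕ) : K) := map_natCast (algebraMap (𝓞 K) K) n
    rwa [e] at h
  have h2 := hnat 2
  have h3 := hnat 3
  have h6 : fv v ((2 : ℕ) : K) * fv v ((3 : ℕ) : K) = 1 := by
    rw [← map_mul, ← h]
    congr 1
    norm_num
  have n2 : 0 ≤ fv v ((2 : ℕ) : K) := (fv v).nonneg _
  have n3 : 0 ≤ fv v ((3 : ℕ) : K) := (fv v).nonneg _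
  have e2 : fv v ((2 : ℕ) : K) = 1 := by nlinarith
  have e3 : fv v ((3 : ℕ) : K) = 1 := by nlinarith
  exact ⟨by simpa using e2, by simpa using e3⟩

open Classical in
/-- simple poles -/
theorem sp_ge {K : Type} [Field K] [NumberField K] (phk : S_PHK) (j : K) :
    2 * ∑ v ∈ am 6 j, Real.log (Nv v) - ht j ≤ sp j := by
  have hpole : ∀ v ∈ am 6 j, 1 < FinitePlace.mk v j := fun v hv => (mem_am.1 hv).1
  have h1 := phk K j (am 6 j) hpole
  rw [Pool.Agent.Q237.LS.ht_log] at h1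
  have h2 : sp j = ∑ v ∈ am 6 j, if Sp j v then Real.log (Nv v) else 0 := by
    apply sp_eq
    intro v hv
    refine mem_am.2 ⟨?_, ?_⟩
    · rw [hv.2.2]
      by_contra hle
      push Not at hle
      have h7 : Real.log (Nv v) ≤ 0 := Real.log_nonpos (Nat.cast_nonneg _) hle
      have := log_Nv_pos v
      linarith
    · have : ((6 : ℕ) : K) = 2 * 3 := by norm_num
      rw [this, map_mul, hv.1, hv.2.1, mul_one]
  have h3 : ∑ v ∈ am 6 j, (if Sp j v then Real.log (Nv v) else 0) =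
      ∑ v ∈ am 6 j, Real.log (Nv v) -
        ∑ v ∈ (am 6 j).filter (fun v => FinitePlace.mk v j ≠ (Ideal.absNorm v.asIdeal : ℝ)),
          Real.log (Ideal.absNorm v.asIdeal) := by
    rw [sum_filter, ← sum_sub_distrib]
    refine sum_congr rfl fun v hv => ?_
    have hv' := mem_am.1 hv
    have h6 := six hv'.2
    by_cases h4 : FinitePlace.mk v j = (Ideal.absNorm v.asIdeal : ℝ)
    · have h5 : Sp j v := ⟨h6.1, h6.2, h4⟩
      rw [if_pos h5, if_neg (not_not.2 h4), sub_zero]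
    · have h5 : ¬ Sp j v := fun h => h4 h.2.2
      rw [if_neg h5, if_pos h4]
      exact (sub_self _).symm
  rw [h2, h3]
  have h4 : ∑ v ∈ am 6 j, Real.log (Ideal.absNorm v.asIdeal) = ∑ v ∈ am 6 j, Real.log (Nv v) := rfl
  rw [h4] at h1
  linarith

/-- the constant -/
noncomputable def L2 (η : ℝ) : ℝ :=
  600 * (C3 + 1 + C4) / (1 - 2 * η) + 6 * (Real.log ((27 * 6912 : ℕ) : ℝ) + Real.log 7) + 1

theorem L2_pos {η : ℝ} (hη : η < 1 / 2) : 0 < L2 η ∧ 600 * (C3 + 1 + C4) / (1 - 2 * η) ≤ L2 η ∧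
    6 * (Real.log ((27 * 6912 : ℕ) : ℝ) + Real.log 7) < L2 η := by
  have hC3 : 0 ≤ C3 := by
    unfold C3
    have h1 : 0 ≤ Real.log 6912 := Real.log_nonneg (by norm_num)
    have h2 : 0 ≤ Real.log 250 := Real.log_nonneg (by norm_num)
    have h3 : 0 ≤ Real.log ((4 * 6912 * 46656 : ℕ) : ℝ) := Real.log_natCast_nonneg _
    positivity
  have hC4 : 0 ≤ C4 := add_nonneg (Real.log_nonneg (by norm_num)) (Real.log_nonneg (by norm_num))
  have h1 : 0 < 1 - 2 * η := by linarith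
  have h2 : 0 ≤ 600 * (C3 + 1 + C4) / (1 - 2 * η) := by positivity
  have h3 : 0 ≤ Real.log ((27 * 6912 : ℕ) : ℝ) := Real.log_natCast_nonneg _
  have h4 : 0 ≤ Real.log 7 := Real.log_nonneg (by norm_num)
  unfold L2
  generalize Real.log ((27 * 6912 : ℕ) : ℝ) = x at h3 ⊢
  generalize 600 * (C3 + 1 + C4) / (1 - 2 * η) = y at h2 ⊢
  refine ⟨by linarith, by linarith, by linarith⟩

/-- one invariant -/
theorem lsp_one (pht : S_PHT) (two : S_TWO) {K : Type} [Field K] [NumberField K] {j : K}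
    (h0 : j ≠ 0) (h1 : j ≠ 1728) {η : ℝ} (hη0 : 0 ≤ η) (hη : η < 1 / 2)
    (hsp : (1 - η) * ht j ≤ sp j) (hht : Module.finrank ℚ K * L2 η ≤ ht j) :
    LSP ((1 - 2 * η) / 100) j := by
  obtain ⟨p1, p2, p3⟩ := L2_pos hη
  have hn : (0 : ℝ) < Module.finrank ℚ K := by exact_mod_cast Module.finrank_pos
  refine lsp_of h0 h1 ?_ hη0 hη hsp (le_trans (mul_le_mul_of_nonneg_left p2 hn.le) hht)
  rintro ⟨α, _, _, h4, rfl⟩
  have h5 := two pht K α h4
  have h6 := ht_jt h4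
  have h7 : 0 ≤ ht (jt α) := ht_nonneg _
  have h8 : Module.finrank ℚ K * (6 * (Real.log ((27 * 6912 : ℕ) : ℝ) + Real.log 7)) <
      Module.finrank ℚ K * L2 η := mul_lt_mul_of_pos_left p3 hn
  have h9 : 0 ≤ Module.finrank ℚ K * Real.log ((27 * 6912 : ℕ) : ℝ) :=
    mul_nonneg hn.le (Real.log_natCast_nonneg _)
  have h10 : 0 ≤ Module.finrank ℚ K * Real.log 7 :=
    mul_nonneg hn.le (Real.log_nonneg (by norm_num))
  nlinarith

/-- the exceptional polynomials are few -/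
theorem few2 (min : S_MIN) (emb : S_EMB) (div : S_DIV) (sub : S_SUB) (nrm : S_NRM)
    (fin : S_FIN) (arc : S_ARC) (pol : S_POL) (pht : S_PHT) (psum : S_PSUM) (pm : S_PM)
    (rd : S_RAD) (cnt : S_CNT) (two : S_TWO) (phk : S_PHK) (d : ℕ) (η ε : ℝ) (hη0 : 0 ≤ η)
    (hη : η < 1 / 2) (hε : 0 < ε) (E : ℕ → Set (Fin (d + 1) → ℤ))
    (hE : ∀ H a, a ∈ E H → (∀ i, |a i| ≤ H) ∧ (∀ p : ℕ, p.Prime → ∃ i, ¬ (p : ℤ) ∣ a i) ∧
      ∃ (K : Type) (_ : Field K) (_ : NumberField K) (j : K), Rt K d a j ∧ j ≠ 0 ∧ j ≠ 1728 ∧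
        ¬ LSP ((1 - 2 * η) / 100) j) :
    ∃ C : ℝ, 0 < C ∧ ∀ H : ℕ, 1 ≤ H → (E H).Finite ∧
      ((E H).ncard : ℝ) ≤ C * (H : ℝ) ^ (d + 1 - η / 2 + ε) := by
  obtain ⟨p1, _, _⟩ := L2_pos hη
  have hd0 : (0 : ℝ) ≤ d := Nat.cast_nonneg d
  have hd1 : (1 : ℝ) ≤ (d : ℝ) + 1 := by linarith
  have hρ : 0 ≤ 1 - η / 2 := by linarith
  have hexp : (1 : ℝ) ≤ Real.exp (d * L2 η) := Real.one_le_exp (by positivity)
  have hdρ : (1 : ℝ) ≤ ((d : ℝ) + 1) ^ (1 - η / 2) := Real.one_le_rpow hd1 hρ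
  set c : ℝ := Real.exp (d * L2 η) * ((d : ℝ) + 1) ^ (1 - η / 2) with hc
  have hc1 : 1 ≤ c := one_le_mul_of_one_le_of_one_le hexp hdρ
  obtain ⟨C, hC, hcnt⟩ := cnt rd d 6 (1 - η / 2) ε c (by norm_num) hρ hε hc1
  refine ⟨C, hC, fun H hH => ?_⟩
  obtain ⟨h1, h2⟩ := hcnt H hH
  have hH1 : (1 : ℝ) ≤ H := by exact_mod_cast hH
  have hsub : E H ⊆ {a : Fin (d + 1) → ℤ | (∀ i, |a i| ≤ H) ∧ a (Fin.last d) ≠ 0 ∧
      (rad 6 (a (Fin.last d)).natAbs : ℝ) ≤ c * (H : ℝ) ^ (1 - η / 2)} := by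
    intro a haE
    obtain ⟨hb, hp, K, _, _, j, hR, h0, h1728, hbad⟩ := hE H a haE
    have ha : a ≠ 0 := by
      rintro rfl
      obtain ⟨i, hi⟩ := hp 2 Nat.prime_two
      exact hi (dvd_zero _)
    have hlast := (min K d a j hR ha).1
    refine ⟨hb, hlast, ?_⟩
    by_contra hgt
    push Not at hgt
    apply hbad
    have hpol := poles_ge min pol psum pm hR hp 6
    have hbR : ∀ i, |(a i : ℝ)| ≤ H := by
      intro i
      exact_mod_cast hb i
    have hht := height_le min emb div sub nrm fin arc hR ha hbR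
    have hpht := pht K j (am 6 j) (fun v hv => (mem_am.1 hv).1)
    have hcpos : 0 < c := by linarith
    have hlog : Real.log c + (1 - η / 2) * Real.log H <
        Real.log (rad 6 (a (Fin.last d)).natAbs) := by
      have h3 := Real.log_lt_log (by positivity) hgt
      rw [Real.log_mul (by positivity) (by positivity), Real.log_rpow (by linarith)] at h3
      exact h3
    have hlc : Real.log c = d * L2 η + (1 - η / 2) * Real.log ((d : ℝ) + 1) := by
      rw [hc, Real.log_mul (by positivity) (by positivity), Real.log_exp,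
        Real.log_rpow (by linarith)]
    have hlH : 0 ≤ Real.log H := Real.log_nonneg hH1
    have hld : 0 ≤ Real.log ((d : ℝ) + 1) := Real.log_nonneg hd1
    have hh : ht j ≤ Real.log ((d : ℝ) + 1) + Real.log H := by
      rw [← Pool.Agent.Q237.LS.ht_log]
      unfold Height.logHeight₁
      rw [← Real.log_mul (by positivity) (by positivity)]
      exact Real.log_le_log (by
        have := Height.one_le_mulHeight₁ j
        linarith) hht
    have hsumeq : ∑ v ∈ am 6 j, Real.log (Ideal.absNorm v.asIdeal) =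
      ∑ v ∈ am 6 j, Real.log (Nv v) := rfl
    rw [hsumeq, Pool.Agent.Q237.LS.ht_log] at hpht
    have hdL : 0 ≤ d * L2 η := by positivity
    have hspge := sp_ge phk j
    have hhn : 0 ≤ ht j := ht_nonneg _
    have e1 : (1 - η / 2) * ht j ≤ (1 - η / 2) * (Real.log ((d : ℝ) + 1) + Real.log H) :=
      mul_le_mul_of_nonneg_left hh hρ
    have e2 : 0 ≤ (1 - η / 2) * Real.log H := mul_nonneg hρ hlH
    have e3 : 0 ≤ (1 - η / 2) * Real.log ((d : ℝ) + 1) := mul_nonneg hρ hld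
    refine lsp_one pht two h0 h1728 hη0 hη ?_ ?_
    · nlinarith
    · rw [hR.deg]
      linarith
  refine ⟨h1.subset hsub, ?_⟩
  refine le_trans (by exact_mod_cast Set.ncard_le_ncard hsub h1) (h2.trans (le_of_eq ?_))
  congr 2
  ring

end Pool.Agent.H16.LP
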