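import Pool.Agent.H16.LP.Stm

/-!
# PROJECT LP (helper16), third part: algebraic integers of degree `d`
-/

set_option autoImplicit false

namespace Pool.Agent.H16.LP

open NumberField IsDedekindDomain

/-- ADD (70 lines).  If the polynomial is monic and the prime `p` divides the constant coefficient
exactly once then some place above `p` is a simple zero of `j`.

Proof.  `j` is an algebraic integer (root of a monic polynomial); `N(j) = ± a_0` (by MIN the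
polynomial is the minimal polynomial of the generator `j`, `Algebra.norm_eq_...` /
`Algebra.PowerBasis.norm_gen_eq_coeff_zero_minpoly` / `IntermediateField` version); so `p` divides the
norm of the ideal `(j)` exactly once; some prime ideal `v` above `p` divides `(j)`, and `v ^ 2` does not
divide it, since `p` divides `N v`. -/
def S_ADD : Prop :=
  S_MIN → ∀ (K : Type) [Field K] [NumberField K] (d : ℕ) (a : Fin (d + 1) → ℤ) (j : K) (p : ℕ),
    Rt K d a j → a (Fin.last d) = 1 → p.Prime → (p : ℤ) ∣ a 0 → ¬ (p : ℤ) ^ 2 ∣ a 0 →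
    ∃ v : HeightOneSpectrum (𝓞 K), ((p : ℕ) : 𝓞 K) ∈ v.asIdeal ∧
      FinitePlace.mk v j = ((Ideal.absNorm v.asIdeal : ℕ) : ℝ)⁻¹

/-- the product of the primes which divide `n` exactly once and do not divide `m` -/
def sf (m n : ℕ) : ℕ := ∏ p ∈ n.primeFactors.filter (fun p => ¬ p ∣ m ∧ ¬ p ^ 2 ∣ n), p

/-- SF (100 lines).  Few integers have a small part `sf m n`.

Proof.  `n = s w` with `s = sf m n ≤ R` and `sf m w = 1`, `w ≤ N / s`.  By Rankin's trick the number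
of these `w ≤ X` is at most `X ^ (1/2 + ε) ∑ w ^ (- 1/2 - ε)`, and this sum is at most
`∏_{p ∣ m} (1 - p ^ (- 1/2 - ε))⁻¹ ∏_{p ∤ m} (1 + ∑_{k ≥ 2} p ^ (- k (1/2 + ε))) < ∞`.  (Or write `w` as
`u a ^ 2 b ^ 3` with all primes of `u` dividing `m`.)  Then sum `(N / s) ^ (1/2 + ε)` over `s ≤ R`. -/
def S_SF : Prop :=
  ∀ (m : ℕ) (ε : ℝ), 0 < m → 0 < ε → ∃ C : ℝ, 0 < C ∧ ∀ (N : ℕ) (R : ℝ), 1 ≤ N → 1 ≤ R →
    (((Finset.Icc 1 N).filter (fun n => (sf m n : ℝ) ≤ R)).card : ℝ) ≤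
      C * R ^ (1 / 2 : ℝ) * (N : ℝ) ^ (1 / 2 + ε)

/-- CNT3 (60 lines).  The number of the coefficient vectors of monic polynomials; compare CNT.lean.
(For `d = 0` the set is empty or one checks directly: here `1 ≤ d`, so `0 ≠ Fin.last d`.) -/
def S_CNT3 : Prop :=
  S_SF → ∀ (d m : ℕ) (ρ ε c : ℝ), 1 ≤ d → 0 < m → 0 ≤ ρ → 0 < ε → 1 ≤ c →
    ∃ C : ℝ, 0 < C ∧ ∀ H : ℕ, 1 ≤ H →
    {a : Fin (d + 1) → ℤ | (∀ i, |a i| ≤ H) ∧ a (Fin.last d) = 1 ∧ a 0 ≠ 0 ∧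
      (sf m (a 0).natAbs : ℝ) ≤ c * (H : ℝ) ^ ρ}.Finite ∧
    ({a : Fin (d + 1) → ℤ | (∀ i, |a i| ≤ H) ∧ a (Fin.last d) = 1 ∧ a 0 ≠ 0 ∧
      (sf m (a 0).natAbs : ℝ) ≤ c * (H : ℝ) ^ ρ}.ncard : ℝ) ≤
      C * (H : ℝ) ^ (d - 1 / 2 + ρ / 2 + ε)

end Pool.Agent.H16.LP
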