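import Pool.Agent.H16.LP.Asm
import Pool.Agent.H16.LP.Stm3

/-!
# PROJECT LP (helper16): assembly, third part
-/

set_option autoImplicit false
set_option linter.unusedSectionVars false

namespace Pool.Agent.H16.LP

open Polynomial NumberField IsDedekindDomain Finset
open Pool.Agent.H691R3 Pool.Agent.W223.AK
open Pool.Agent.TH942 Pool.Agent.TH910.LS Pool.Agent.Y733.LS Pool.Agent.Y733.UD
open Pool.Agent.Q237.LS Pool.Agent.Q237.LT Pool.Agent.H16.LA

open Classical in
/-- the simple zeros of `j` -/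
theorem zeros_ge (min : S_MIN) (add : S_ADD) (psum : S_PSUM) (pm : S_PM) {K : Type} [Field K]
    [NumberField K] {d : ℕ} {a : Fin (d + 1) → ℤ} {j : K} (h : Rt K d a j)
    (h0 : j ≠ 0) (h1728 : j ≠ 1728) (ha : a (Fin.last d) = 1) {m : ℕ} (hm3 : ¬ 3 ∣ m) :
    Real.log (sf (6 * m) (a 0).natAbs) ≤
      ∑ v ∈ (um m j).filter (fun v => fv v j < 1), Real.log (Nv v) := by
  have h1 : Real.log (sf (6 * m) (a 0).natAbs) =
      ∑ p ∈ (a 0).natAbs.primeFactors.filter (fun p => ¬ p ∣ 6 * m ∧ ¬ p ^ 2 ∣ (a 0).natAbs),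
        Real.log p := by
    unfold sf
    rw [Nat.cast_prod, Real.log_prod]
    intro p hp
    have := (Nat.prime_of_mem_primeFactors (mem_filter.1 hp).1).pos
    positivity
  rw [h1]
  refine psum K _ _ ?_
  intro p hpf
  rw [mem_filter] at hpf
  have hpp := Nat.prime_of_mem_primeFactors hpf.1
  have hd1 : (p : ℤ) ∣ a 0 := Int.natCast_dvd.2 (Nat.dvd_of_mem_primeFactors hpf.1)
  have hd2 : ¬ (p : ℤ) ^ 2 ∣ a 0 := by
    intro h2
    apply hpf.2.2
    have h3 : ((p ^ 2 : ℕ) : ℤ) ∣ a 0 := by exact_mod_cast h2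
    exact Int.natCast_dvd.1 h3
  obtain ⟨v, h2, h3⟩ := add min K d a j p h ha hpp hd1 hd2
  have hp2 : ¬ p ∣ 2 := fun h => hpf.2.1 ((h.trans (by norm_num : 2 ∣ 6)).trans (dvd_mul_right 6 m))
  have hp3 : ¬ p ∣ 3 := fun h => hpf.2.1 ((h.trans (by norm_num : 3 ∣ 6)).trans (dvd_mul_right 6 m))
  have hpm : ¬ p ∣ m := fun h => hpf.2.1 (h.trans (dvd_mul_left m 6))
  have e2 := pm K v p 2 hpp h2 hp2
  have e3 := pm K v p 3 hpp h2 hp3
  have em := pm K v p m hpp h2 hpm
  have e2' : fv v ((2 : ℕ) : K) = 1 := e2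
  have e3' : fv v ((3 : ℕ) : K) = 1 := e3
  rw [Nat.cast_ofNat] at e2' e3'
  have hN1 : 1 < Nv v := by
    by_contra hle
    push Not at hle
    have h7 : Real.log (Nv v) ≤ 0 := Real.log_nonpos (Nat.cast_nonneg _) hle
    have := log_Nv_pos v
    linarith
  have hj : fv v j = (Nv v)⁻¹ := h3
  have hlt : fv v j < 1 := by
    rw [hj]
    exact inv_lt_one_of_one_lt₀ hN1
  refine ⟨hpp, v, ?_, h2⟩
  rw [mem_filter]
  refine ⟨?_, hlt⟩
  rw [mem_um h0 h1728]
  refine ⟨⟨e2', e3', hlt.le⟩, em, Or.inl ⟨hm3, ?_⟩⟩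
  intro k hk
  rw [hj, ← zpow_neg_one] at hk
  have := zpow_right_injective₀ (by linarith) hN1.ne' hk
  omega

/-- the exceptional polynomials are few -/
theorem few3 (min : S_MIN) (emb : S_EMB) (div : S_DIV) (sub : S_SUB) (nrm : S_NRM)
    (fin : S_FIN) (arc : S_ARC) (pht : S_PHT) (psum : S_PSUM) (pm : S_PM)
    (add : S_ADD) (sfc : S_SF) (cnt : S_CNT3) (d m : ℕ) (θ κ ε : ℝ) (hm : 0 < m)
    (hm3 : ¬ 3 ∣ m) (hθ : 0 < θ) (hθ1 : θ ≤ 1) (hκ : 0 ≤ κ) (hε : 0 < ε)
    (E : ℕ → Set (Fin (d + 1) → ℤ))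
    (hE : ∀ H a, a ∈ E H → (∀ i, |a i| ≤ H) ∧ a (Fin.last d) = 1 ∧
      ∃ (K : Type) (_ : Field K) (_ : NumberField K) (j : K), Rt K d a j ∧ j ≠ 0 ∧ j ≠ 1728 ∧
        ¬ UM m κ ((θ / m) ^ 6 / 290000) (28 * m ^ 2 / θ ^ 2) j) :
    ∃ C : ℝ, 0 < C ∧ ∀ H : ℕ, 1 ≤ H → (E H).Finite ∧
      ((E H).ncard : ℝ) ≤ C * (H : ℝ) ^ (d - 1 / 2 + (θ + κ) / 2 + ε) := by
  rcases Nat.eq_zero_or_pos d with hd0 | hdpos
  · refine ⟨1, one_pos, fun H hH => ?_⟩
    have he : E H = ∅ := by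
      rw [Set.eq_empty_iff_forall_notMem]
      intro a haE
      obtain ⟨_, _, K, _, _, j, hR, _⟩ := hE H a haE
      have h1 : 0 < Module.finrank ℚ K := Module.finrank_pos
      rw [hR.deg] at h1
      omega
    rw [he]
    refine ⟨Set.finite_empty, ?_⟩
    rw [Set.ncard_empty]
    have : (0 : ℝ) ≤ (H : ℝ) ^ ((d : ℝ) - 1 / 2 + (θ + κ) / 2 + ε) :=
      Real.rpow_nonneg (Nat.cast_nonneg _) _
    simpa using this
  set L0 : ℝ := 144 * c8 * m ^ 2 / θ ^ 2 with hL0
  have hL00 : 0 ≤ L0 := by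
    have := c8_pos
    positivity
  have hd1 : (1 : ℝ) ≤ (d : ℝ) + 1 := by
    have : (0 : ℝ) ≤ d := Nat.cast_nonneg d
    linarith
  have hρ : 0 ≤ θ + κ := by linarith
  have hdρ : (1 : ℝ) ≤ ((d : ℝ) + 1) ^ (θ + κ) := Real.one_le_rpow hd1 hρ
  have hexp : (1 : ℝ) ≤ Real.exp (d * L0) := Real.one_le_exp (by positivity)
  set c : ℝ := Real.exp (d * L0) * ((d : ℝ) + 1) ^ (θ + κ) with hc
  have hc1 : 1 ≤ c := one_le_mul_of_one_le_of_one_le hexp hdρ
  obtain ⟨C, hC, hcnt⟩ := cnt sfc d (6 * m) (θ + κ) ε c hdpos (by omega) hρ hε hc1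
  refine ⟨C, hC, fun H hH => ?_⟩
  obtain ⟨h1, h2⟩ := hcnt H hH
  have hH1 : (1 : ℝ) ≤ H := by exact_mod_cast hH
  have hsub : E H ⊆ {a : Fin (d + 1) → ℤ | (∀ i, |a i| ≤ H) ∧ a (Fin.last d) = 1 ∧ a 0 ≠ 0 ∧
      (sf (6 * m) (a 0).natAbs : ℝ) ≤ c * (H : ℝ) ^ (θ + κ)} := by
    intro a haE
    obtain ⟨hb, hlast, K, _, _, j, hR, h0, h1728, hbad⟩ := hE H a haE
    have ha : a ≠ 0 := by
      rintro rfl
      simp at hlast
    have ha0 : a 0 ≠ 0 := by
      intro h00
      have h3 := (min K d a j hR ha).2.2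
      have h4 := congrArg (fun q => q.coeff 0) h3
      simp only [finset_sum_coeff, coeff_monomial, coeff_C_mul] at h4
      rw [Finset.sum_eq_single (0 : Fin (d + 1))] at h4
      · simp only [Fin.val_zero, if_true, h00, hlast, Int.cast_zero, Int.cast_one, one_mul] at h4
        apply h0
        have h5 : (minpoly ℚ j).coeff 0 = 0 := h4.symm
        exact (minpoly.coeff_zero_eq_zero (Algebra.IsIntegral.isIntegral j)).1 h5
      · intro i _ hi
        rw [if_neg]
        intro h5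
        exact hi (Fin.ext h5)
      · intro h5
        exact absurd (mem_univ _) h5
    refine ⟨hb, hlast, ha0, ?_⟩
    by_contra hgt
    push Not at hgt
    apply hbad
    classical
    have hz := zeros_ge min add psum pm hR h0 h1728 hlast hm3
    have hbR : ∀ i, |(a i : ℝ)| ≤ H := by
      intro i
      exact_mod_cast hb i
    have hht := height_le min emb div sub nrm fin arc hR ha hbR
    have hpht := pht K j⁻¹ ((um m j).filter (fun v => fv v j < 1)) (fun v hv => by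
      have h3 := (mem_filter.1 hv).2
      have h4 : 0 < fv v j := (fv v).pos h0
      have h5 : FinitePlace.mk v j⁻¹ = (fv v j)⁻¹ := map_inv₀ (fv v) j
      rw [h5]
      exact (one_lt_inv₀ h4).2 h3)
    rw [Height.logHeight₁_inv] at hpht
    have hcpos : 0 < c := by linarith
    have hlog : Real.log c + (θ + κ) * Real.log H < Real.log (sf (6 * m) (a 0).natAbs) := by
      have h3 := Real.log_lt_log (by positivity) hgt
      rw [Real.log_mul (by positivity) (by positivity), Real.log_rpow (by linarith)] at h3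
      exact h3
    have hlc : Real.log c = d * L0 + (θ + κ) * Real.log ((d : ℝ) + 1) := by
      rw [hc, Real.log_mul (by positivity) (by positivity), Real.log_exp,
        Real.log_rpow (by linarith)]
    have hlH : 0 ≤ Real.log H := Real.log_nonneg hH1
    have hld : 0 ≤ Real.log ((d : ℝ) + 1) := Real.log_nonneg hd1
    have hh : ht j ≤ Real.log ((d : ℝ) + 1) + Real.log H := by
      rw [← Pool.Agent.Q237.LS.ht_log]
      unfold Height.logHeight₁
      rw [← Real.log_mul (by positivity) (by positivity)]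
      exact Real.log_le_log (by
        have := Height.one_le_mulHeight₁ j
        linarith) hht
    have hsumeq : ∑ v ∈ (um m j).filter (fun v => fv v j < 1), Real.log (Ideal.absNorm v.asIdeal) =
      ∑ v ∈ (um m j).filter (fun v => fv v j < 1), Real.log (Nv v) := rfl
    rw [hsumeq, Pool.Agent.Q237.LS.ht_log] at hpht
    have hdL : 0 ≤ d * L0 := by positivity
    have e1 : (θ + κ) * ht j ≤ (θ + κ) * (Real.log ((d : ℝ) + 1) + Real.log H) :=
      mul_le_mul_of_nonneg_left hh hρ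
    have e2 : 0 ≤ (θ + κ) * Real.log H := mul_nonneg hρ hlH
    have e3 : 0 ≤ (θ + κ) * Real.log ((d : ℝ) + 1) := mul_nonneg hρ hld
    refine UM_of h0 h1728 hm hθ hθ1 ?_ ?_
    · unfold fm
      have ham : 0 ≤ ∑ v ∈ am m j, Real.log (Nv v) :=
        sum_nonneg fun v _ => (log_Nv_pos v).le
      have hum : ∑ v ∈ (um m j).filter (fun v => fv v j < 1), Real.log (Nv v) ≤
          ∑ v ∈ um m j, Real.log (Nv v) :=
        sum_le_sum_of_subset_of_nonneg (filter_subset _ _) fun v _ _ => (log_Nv_pos v).le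
      nlinarith
    · rw [hR.deg]
      linarith
  refine ⟨h1.subset hsub, ?_⟩
  exact le_trans (by exact_mod_cast Set.ncard_le_ncard hsub h1) h2

end Pool.Agent.H16.LP
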