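import Mathlib

/-!
# PROJECT LP (helper16): algebraic numbers of degree `d` with many poles, statements

`a : Fin (d + 1) → ℤ` is the coefficient vector of a polynomial with the root `j`, which generates a
number field of degree `d`.
-/

set_option autoImplicit false

namespace Pool.Agent.H16.LP

open Polynomial NumberField IsDedekindDomain

/-- `j` generates `K`, of degree `d`, and is a root of the polynomial with coefficients `a` -/
structure Rt (K : Type) [Field K] [NumberField K] (d : ℕ) (a : Fin (d + 1) → ℤ) (j : K) : Prop where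
  deg : Module.finrank ℚ K = d
  gen : IntermediateField.adjoin ℚ {j} = ⊤
  root : ∑ i, (a i : K) * j ^ (i : ℕ) = 0

/-- MIN (50 lines).  The polynomial is `a_d` times the minimal polynomial.  (The minimal polynomial
has degree `finrank = d` since `j` generates `K` and divides the polynomial, which is nonzero and
has degree at most `d`.) -/
def S_MIN : Prop :=
  ∀ (K : Type) [Field K] [NumberField K] (d : ℕ) (a : Fin (d + 1) → ℤ) (j : K), Rt K d a j →
    a ≠ 0 → a (Fin.last d) ≠ 0 ∧ (minpoly ℚ j).natDegree = d ∧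
      ∑ i : Fin (d + 1), monomial (i : ℕ) ((a i : ℤ) : ℚ) = C ((a (Fin.last d) : ℤ) : ℚ) * minpoly ℚ j

/-- EMB (40 lines).  The roots of the minimal polynomial of a generator are its conjugates.
(`NumberField.Embeddings.range_eval_eq_rootSet_minpoly`, separability, number of the embeddings
= finrank = natDegree; embeddings are determined by the value at `j`.) -/
def S_EMB : Prop :=
  ∀ (K : Type) [Field K] [NumberField K] (j : K), IntermediateField.adjoin ℚ {j} = ⊤ →
    (minpoly ℚ j).map (algebraMap ℚ ℂ) = ∏ φ : K →+* ℂ, (X - C (φ j))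

/-- DIV (60 lines).  If all coefficients of `(X - α) G` are algebraic integers then so are those of
`G` (no condition on the leading coefficient).

Proof.  Let `F = (X - α) G = ∑ f_i X ^ i` have degree `≤ D`, `g_k = ∑_{i > k} f_i α ^ (i - k - 1)`.
Let `A` be the ring of algebraic integers of `L` and `M` the `A`-module generated by
`1, α, ..., α ^ (D - 1)`.  Then `g_k M ⊆ M`: for `i ≤ k` clear, for `i > k` use
`g_k α ^ (k + 1) = ∑_{l > k} f_l α ^ l = - ∑_{l ≤ k} f_l α ^ l`.  So `g_k` is integral over `A`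
(`isIntegral_of_smul_mem_submodule`), hence over `ℤ`. -/
def S_DIV : Prop :=
  ∀ (L : Type) [Field L] [CharZero L] (G : L[X]) (α : L),
    (∀ i, IsIntegral ℤ (((X - C α) * G).coeff i)) → ∀ i, IsIntegral ℤ (G.coeff i)

/-- SUB (30 lines).  If all coefficients of `c ∏ (X - α_i)` are algebraic integers then
`c ∏_{i ∈ t} α_i` is an algebraic integer for all subsets `t`.  (Divide the factors outside of `t`
out one by one with DIV; then look at the constant coefficient.) -/
def S_SUB : Prop :=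
  S_DIV → ∀ (L : Type) [Field L] [CharZero L] (ι : Type) [DecidableEq ι] (s t : Finset ι)
    (α : ι → L) (c : L), t ⊆ s → (∀ i, IsIntegral ℤ ((C c * ∏ i ∈ s, (X - C (α i))).coeff i)) →
      IsIntegral ℤ (c * ∏ i ∈ t, α i)

/-- NRM (60 lines).  `a_d N(α + β j)` is an integer for all algebraic integers `α`, `β` of `K`.
(`Algebra.norm_eq_prod_embeddings`; expand the product over the embeddings with `Finset.prod_add`;
each term is an algebraic integer by SUB applied to `a_d` times the minimal polynomial; a rational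
algebraic integer is an integer.) -/
def S_NRM : Prop :=
  S_MIN → S_EMB → (∀ (ι : Type) [DecidableEq ι] (s t : Finset ι)
    (α : ι → ℂ) (c : ℂ), t ⊆ s → (∀ i, IsIntegral ℤ ((C c * ∏ i ∈ s, (X - C (α i))).coeff i)) →
      IsIntegral ℤ (c * ∏ i ∈ t, α i)) →
  ∀ (K : Type) [Field K] [NumberField K] (d : ℕ) (a : Fin (d + 1) → ℤ) (j : K), Rt K d a j →
    a ≠ 0 → ∀ α β : 𝓞 K, ∃ z : ℤ,
      ((a (Fin.last d) : ℤ) : ℚ) * Algebra.norm ℚ ((α : K) + β * j) = z

/-- FIN (80 lines).  The finite part of the height of `j` is at most `|a|`.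

Proof.  Let `c > 0` be an integer with `c j` an algebraic integer and `I = (c, c j)`.  By
`NumberField.absNorm_mul_finprod_finitePlace_eq_one` for `![c j, c]` and
`FinitePlace.prod_eq_inv_abs_norm` for `c` the product is `c ^ n / N(I)`.  The norms of all elements
`α c j' + β c` of `I` are in `(c ^ n / a) ℤ` by hypothesis, and `N(I)` is the greatest common
divisor of these norms (`Ideal.spanNorm`, `Ideal.relNorm_int` or similar), so `N(I) ≥ c ^ n / |a|`. -/
def S_FIN : Prop :=
  ∀ (K : Type) [Field K] [NumberField K] (a : ℤ) (j : K), a ≠ 0 →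
    (∀ α β : 𝓞 K, ∃ z : ℤ, (a : ℚ) * Algebra.norm ℚ ((α : K) + β * j) = z) →
    ∏ᶠ v : FinitePlace K, max (v j) 1 ≤ |(a : ℝ)|

/-- ARC (60 lines).  The archimedean part of the height.  (The product over the places is the product
of `max ‖φ j‖ 1` over the embeddings; `Polynomial.mahlerMeasure_eq_leadingCoeff_mul_prod_roots` and
`Polynomial.mahlerMeasure_le_sum_norm_coeff` for `a_d` times the minimal polynomial, with MIN and
EMB.) -/
def S_ARC : Prop :=
  S_MIN → S_EMB → ∀ (K : Type) [Field K] [NumberField K] (d : ℕ) (a : Fin (d + 1) → ℤ) (j : K)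
    (H : ℝ), Rt K d a j → a ≠ 0 → (∀ i, |(a i : ℝ)| ≤ H) →
      |(a (Fin.last d) : ℝ)| * ∏ v : InfinitePlace K, max (v j) 1 ^ v.mult ≤ (d + 1) * H

/-- POL (80 lines).  If a prime `p` divides `a_d` but not all `a_i`, then `j` has a pole above `p`.

Proof.  Otherwise `|j|_v ≤ 1` at all `v` above `p`.  Then there is an integer `s` prime to `p` with
`s j` integral (e.g. `s` = the norm of the ideal of all `x ∈ 𝓞 K` with `x j ∈ 𝓞 K`, or the product
of the norms of the poles to a large power).  The minimal polynomial of `s j` has integral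
coefficients, which are `s ^ (d - i) a_i / a_d`; so `p` divides `s ^ (d - i) a_i` for all `i`. -/
def S_POL : Prop :=
  S_MIN → ∀ (K : Type) [Field K] [NumberField K] (d : ℕ) (a : Fin (d + 1) → ℤ) (j : K) (p : ℕ),
    Rt K d a j → p.Prime → (p : ℤ) ∣ a (Fin.last d) → (∃ i, ¬ (p : ℤ) ∣ a i) →
    ∃ v : HeightOneSpectrum (𝓞 K), ((p : ℕ) : 𝓞 K) ∈ v.asIdeal ∧ 1 < FinitePlace.mk v j

/-- PHT (50 lines).  The poles and the height.  (`NumberField.logHeight₁_eq`; at a pole the absolute
value is at least the norm of `v`.) -/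
def S_PHT : Prop :=
  ∀ (K : Type) [Field K] [NumberField K] (j : K) (A : Finset (HeightOneSpectrum (𝓞 K))),
    (∀ v ∈ A, 1 < FinitePlace.mk v j) →
    ∑ v ∈ A, Real.log (Ideal.absNorm v.asIdeal) ≤ Height.logHeight₁ j

/-- PSUM (40 lines).  Different primes have different places above them, and `N v ≥ p`. -/
def S_PSUM : Prop :=
  ∀ (K : Type) [Field K] [NumberField K] (A : Finset (HeightOneSpectrum (𝓞 K))) (P : Finset ℕ),
    (∀ p ∈ P, p.Prime ∧ ∃ v ∈ A, ((p : ℕ) : 𝓞 K) ∈ v.asIdeal) →
    ∑ p ∈ P, Real.log p ≤ ∑ v ∈ A, Real.log (Ideal.absNorm v.asIdeal)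

/-- PM (20 lines).  `v` divides `p` and `p` does not divide `m`, then `m` is a unit at `v`. -/
def S_PM : Prop :=
  ∀ (K : Type) [Field K] [NumberField K] (v : HeightOneSpectrum (𝓞 K)) (p m : ℕ), p.Prime →
    ((p : ℕ) : 𝓞 K) ∈ v.asIdeal → ¬ p ∣ m → FinitePlace.mk v (m : K) = 1

/-- the product of the primes which divide `n` but not `m` -/
def rad (m n : ℕ) : ℕ := ∏ p ∈ n.primeFactors.filter (fun p => ¬ p ∣ m), p

/-- RAD (100 lines).  Few integers have a small radical.

Proof (Rankin).  The number is at most `∑ (N / n) ^ ε` over these `n`, and the sum of `n ^ (- ε)` over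
all `n` with the set of prime factors `T` is `∏_{p ∈ T} (p ^ ε - 1)⁻¹ ≤ C_ε` (only the primes with
`p ^ ε < 2` give factors `> 1`).  The sets `T` with `∏_{p ∈ T, p ∤ m} p ≤ R` are at most `2 ^ m R`.
(Or: by strong induction / multiplicativity, any proof is fine.) -/
def S_RAD : Prop :=
  ∀ (m : ℕ) (ε : ℝ), 0 < m → 0 < ε → ∃ C : ℝ, 0 < C ∧ ∀ (N : ℕ) (R : ℝ), 1 ≤ N → 1 ≤ R →
    (((Finset.Icc 1 N).filter (fun n => (rad m n : ℝ) ≤ R)).card : ℝ) ≤ C * R * (N : ℝ) ^ ε

/-- CNT (60 lines).  The number of the coefficient vectors. -/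
def S_CNT : Prop :=
  S_RAD → ∀ (d m : ℕ) (ρ ε c : ℝ), 0 < m → 0 ≤ ρ → 0 < ε → 1 ≤ c → ∃ C : ℝ, 0 < C ∧ ∀ H : ℕ, 1 ≤ H →
    {a : Fin (d + 1) → ℤ | (∀ i, |a i| ≤ H) ∧ a (Fin.last d) ≠ 0 ∧
      (rad m (a (Fin.last d)).natAbs : ℝ) ≤ c * (H : ℝ) ^ ρ}.Finite ∧
    ({a : Fin (d + 1) → ℤ | (∀ i, |a i| ≤ H) ∧ a (Fin.last d) ≠ 0 ∧
      (rad m (a (Fin.last d)).natAbs : ℝ) ≤ c * (H : ℝ) ^ ρ}.ncard : ℝ) ≤
      C * (H : ℝ) ^ (d + ρ + ε)

end Pool.Agent.H16.LP
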